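import Pool.Agent.H37.CV.Targets
import Pool.Agent.H96.CV.DS

/-!
Module DL of the board cmv_modules: the long relations.
-/

set_option autoImplicit false

open NumberField NumberField.InfinitePlace Finset

namespace Pool.Agent.H46.CV

open Pool.Agent.H37.CV Pool.Agent.H28.RC Pool.Agent.H25.HK Pool.Agent.H96.CV

theorem far_pow {Q M P δ : ℝ} {A : ℕ} (hA : 9 ≤ δ * A) (hQ : 1 ≤ Q) (hM1 : 1 ≤ M)
    (hMQ : M ≤ Q) (hP : Q ^ (1 + δ) * M ^ 2 ≤ P) : (Q * M ^ 2 / P) ^ (A + 3) ≤ (P ^ 3)⁻¹ := by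
  have hQ0 : 0 < Q := by linarith
  have hM0 : 0 < M := by linarith
  have hP0 : 0 < P := lt_of_lt_of_le (by positivity) hP
  set t : ℝ := Q * M ^ 2 / P with ht
  have ht0 : 0 < t := by positivity
  have ht1 : t ≤ Q ^ (-δ) := by
    rw [ht, div_le_iff₀ hP0]
    have h1 : Q * M ^ 2 = Q ^ (-δ) * (Q ^ (1 + δ) * M ^ 2) := by
      rw [← mul_assoc, ← Real.rpow_add hQ0]
      norm_num
    rw [h1]
    gcongr
  have ht2 : t ^ A ≤ (Q ^ 9)⁻¹ := by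
    calc t ^ A ≤ (Q ^ (-δ)) ^ A := by gcongr
      _ = Q ^ (-(δ * A)) := by
          rw [← Real.rpow_natCast, ← Real.rpow_mul hQ0.le]; congr 1; ring
      _ ≤ Q ^ (-(9 : ℝ)) := Real.rpow_le_rpow_of_exponent_le hQ (by linarith)
      _ = (Q ^ 9)⁻¹ := by
          rw [Real.rpow_neg hQ0.le]; norm_cast
  have hQM : (Q * M ^ 2) ^ 3 ≤ Q ^ 9 := by
    calc (Q * M ^ 2) ^ 3 ≤ (Q * Q ^ 2) ^ 3 := by gcongr
      _ = Q ^ 9 := by ring
  have ht3 : t ^ 3 = (Q * M ^ 2) ^ 3 * (P ^ 3)⁻¹ := by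
    rw [ht, div_pow, div_eq_mul_inv]
  rw [pow_add, ht3]
  calc t ^ A * ((Q * M ^ 2) ^ 3 * (P ^ 3)⁻¹) ≤ (Q ^ 9)⁻¹ * (Q ^ 9 * (P ^ 3)⁻¹) := by gcongr
    _ = (P ^ 3)⁻¹ := by
        rw [← mul_assoc, inv_mul_cancel₀ (by positivity), one_mul]

section

variable {K : Type} [Field K] [NumberField K]

theorem uc_pos {d : Ideal (𝓞 K)} (hd : d ≠ ⊥) : 1 ≤ uc d := by
  unfold uc
  have : Finite (𝓞 K ⧸ d) := Ideal.finiteQuotientOfFreeOfNeBot d hd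
  have h1 : (Set.range fun u : (𝓞 K)ˣ => Ideal.Quotient.mk d (u : 𝓞 K)).Nonempty :=
    ⟨_, 1, rfl⟩
  exact (Set.ncard_pos (Set.toFinite _)).mpr h1

theorem nm_le_of_le {q : ℕ} (hq : q.Prime) {d : Ideal (𝓞 K)} (hd : qi K q ≤ d) :
    nm d ≤ (q : ℝ) ^ Module.finrank ℚ K := by
  rw [← nm_qi K q]
  unfold nm
  have h1 : Ideal.absNorm d ∣ Ideal.absNorm (qi K q) := Ideal.absNorm_dvd_absNorm_of_le hd
  have h2 : Ideal.absNorm (qi K q) ≠ 0 := by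
    intro h
    have h3 := Ideal.absNorm_eq_zero_iff.mp h
    rw [qi, Ideal.span_singleton_eq_bot] at h3
    exact hq.ne_zero (by exact_mod_cast h3)
  exact_mod_cast Nat.le_of_dvd (by omega) h1

theorem ne_bot_of_le {q : ℕ} (hq : q.Prime) {d : Ideal (𝓞 K)} (hd : qi K q ≤ d) : d ≠ ⊥ := by
  intro h
  rw [h, le_bot_iff, qi, Ideal.span_singleton_eq_bot] at hd
  exact hq.ne_zero (by exact_mod_cast hd)

/-- the sum of `nm^(-2)` over the pairs of nonzero ideals -/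
theorem pairs_sum (hZK : H37.CV.T_ZK) : ∃ S : ℝ, 0 ≤ S ∧
    ∀ X : Finset (Ideal (𝓞 K) × Ideal (𝓞 K)), (∀ p ∈ X, p.1 ≠ ⊥ ∧ p.2 ≠ ⊥) →
      ∑ p ∈ X, ((nm p.1 * nm p.2) ^ 2)⁻¹ ≤ S := by
  classical
  obtain ⟨E, -, hE, -⟩ := hZK K
  set f : NI K → ℝ := fun y => (nm y.1 ^ 2)⁻¹ with hf
  have hfs : Summable f := by
    have h1 := (hE ((2 : ℝ) : ℂ) (by rw [Complex.ofReal_re]; norm_num)).1
    refine h1.congr fun y => ?_
    rw [← Complex.ofReal_neg, ← Complex.ofReal_cpow (nm_pos y.2).le, Complex.norm_real,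
      Real.norm_of_nonneg (Real.rpow_nonneg (nm_pos y.2).le _), Real.rpow_neg (nm_pos y.2).le]
    norm_cast
  have hf0 : ∀ y, 0 ≤ f y := fun y => by positivity
  set F : NI K × NI K → ℝ := fun z => f z.1 * f z.2 with hF
  have hFs : Summable F := hfs.mul_of_nonneg hfs hf0 hf0
  have hF0 : ∀ z, 0 ≤ F z := fun z => mul_nonneg (hf0 _) (hf0 _)
  refine ⟨∑' z, F z, tsum_nonneg hF0, fun X hX => ?_⟩
  have hne : Nonempty (NI K × NI K) := ⟨(⟨⊤, top_ne_bot⟩, ⟨⊤, top_ne_bot⟩)⟩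
  have hch : ∀ p ∈ X, ∃ z : NI K × NI K, p = (z.1.1, z.2.1) := fun p hp =>
    ⟨(⟨p.1, (hX p hp).1⟩, ⟨p.2, (hX p hp).2⟩), rfl⟩
  choose! g hg using hch
  have hinj : Set.InjOn g X := by
    intro p hp p' hp' h
    rw [hg p hp, hg p' hp', h]
  calc ∑ p ∈ X, ((nm p.1 * nm p.2) ^ 2)⁻¹ = ∑ p ∈ X, F (g p) := by
        refine Finset.sum_congr rfl fun p hp => ?_
        have h1 := hg p hp
        have h2 : p.1 = (g p).1.1 := congrArg Prod.fst h1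
        have h3 : p.2 = (g p).2.1 := congrArg Prod.snd h1
        change ((nm p.1 * nm p.2) ^ 2)⁻¹ = (nm (g p).1.1 ^ 2)⁻¹ * (nm (g p).2.1 ^ 2)⁻¹
        rw [← h2, ← h3, mul_pow, mul_inv]
    _ = ∑ z ∈ X.image g, F z := by rw [Finset.sum_image hinj]
    _ ≤ ∑' z, F z := hFs.sum_le_tsum _ fun z _ => hF0 z

end

/-- the logarithmic factor -/
theorem logs_le {n : ℕ} {B δ x M : ℝ} (hB : 1 ≤ B) (hδ : 0 < δ) (hx : 1 ≤ x) (hM1 : 1 ≤ M)
    (hMx : M ≤ x) :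
    0 ≤ 1 + Real.log (B * x ^ n) + Real.log M ∧
    1 + Real.log (B * x ^ n) + Real.log M ≤
      (1 + Real.log B + ((n : ℝ) + 1) * (1 / δ)) * x ^ δ := by
  have hx0 : 0 < x := by linarith
  have hlB := Real.log_nonneg hB
  have hlx := Real.log_nonneg hx
  have hlM := Real.log_nonneg hM1
  have h1 : Real.log (B * x ^ n) = Real.log B + n * Real.log x := by
    rw [Real.log_mul (by positivity) (by positivity), Real.log_pow]
  have h2 : Real.log M ≤ Real.log x := Real.log_le_log (by linarith) hMx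
  have h3 : Real.log x ≤ x ^ δ / δ := Real.log_le_rpow_div hx0.le hδ
  have h4 : (1 : ℝ) ≤ x ^ δ := Real.one_le_rpow hx hδ.le
  have hn : (0 : ℝ) ≤ n := Nat.cast_nonneg n
  constructor
  · rw [h1]; positivity
  · rw [h1]
    calc 1 + (Real.log B + n * Real.log x) + Real.log M
        ≤ (1 + Real.log B) + (n + 1) * Real.log x := by linarith
      _ ≤ (1 + Real.log B) * x ^ δ + (n + 1) * (x ^ δ / δ) := by
          refine add_le_add (le_mul_of_one_le_right (by positivity) h4) ?_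
          exact mul_le_mul_of_nonneg_left h3 (by positivity)
      _ = _ := by ring

theorem pf_DL (hDT : H37.CV.T_DT) (hPS : H37.CV.T_PS) (hDV : H37.CV.T_DV) (hHQ : H37.CV.T_HQ)
    (hZK : H37.CV.T_ZK) : H37.CV.T_DL := by
  classical
  intro K _ _ _ ε₁ η c hε₁ hε₁' hη hc
  set n : ℕ := Module.finrank ℚ K with hn
  have hn1 : 1 ≤ n := Module.finrank_pos
  have hn1' : (1 : ℝ) ≤ n := by exact_mod_cast hn1
  set δ' : ℝ := ε₁ / (2 * n) with hδ'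
  have hδ'0 : 0 < δ' := by positivity
  have hδ'1 : δ' ≤ 1 := by
    rw [hδ', div_le_one (by positivity)]; linarith
  have hδ'n : n * δ' / 2 = ε₁ / 4 := by rw [hδ']; field_simp; ring
  set e : ℝ := ε₁ / (4 * (2 * n + 2)) with he
  have he0 : 0 < e := by positivity
  have hen : e * (2 * n + 2) = ε₁ / 4 := by rw [he]; field_simp
  obtain ⟨A, hA⟩ : ∃ A : ℕ, 9 ≤ δ' * A := by
    obtain ⟨A, hA⟩ := exists_nat_ge (9 / δ')
    refine ⟨A, ?_⟩
    rw [div_le_iff₀ hδ'0] at hA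
    linarith
  obtain ⟨C_T, hC_T⟩ := hDT K (A + 3)
  obtain ⟨C_P, hC_P⟩ := hPS K e he0
  obtain ⟨C_V, hC_V1, -, hC_V⟩ := (hDV K).1 (1 / 2) (by norm_num)
  obtain ⟨c_H, C_H, q₁, hc_H, hHQ'⟩ := hHQ K
  obtain ⟨S, hS0, hS⟩ := pairs_sum (K := K) hZK
  set B : ℝ := |(discr K : ℝ)| with hB
  have hB1 : 1 ≤ B := one_le_discr K
  set c_L : ℝ := 1 + Real.log B + ((n : ℝ) + 1) * (1 / (ε₁ / 16)) with hc_L
  have hc_L0 : 0 ≤ c_L := by
    have := Real.log_nonneg hB1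
    positivity
  set C1 : ℝ := |C_T| * |C_P| * |C_H| * c_L ^ 4 * B ^ (2 * e) * (c ^ (-(1 / 2) : ℝ) + B) with hC1
  set C2 : ℝ := |C_H| * (|C_T| * C_V ^ 2 * c_L ^ 4 * S) with hC2
  have hC10 : 0 ≤ C1 := by positivity
  have hC20 : 0 ≤ C2 := by positivity
  obtain ⟨q₂, hq₂⟩ := exists_nat_ge (((C1 + C2) / (η * c_H)) ^ (1 / ε₁))
  refine ⟨max q₁ q₂, ?_⟩
  intro q hq hq0 d hd X hX
  obtain ⟨hHQ1, hHQ2⟩ := hHQ' q hq ((le_max_left _ _).trans hq0)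
  obtain ⟨hHQ3, -⟩ := hHQ2 d hd
  have hqq₂ : q₂ ≤ q := (le_max_right _ _).trans hq0
  set x : ℝ := (q : ℝ) with hx
  have hx1 : (1 : ℝ) ≤ x := by rw [hx]; exact_mod_cast hq.one_le
  have hx0 : 0 < x := by linarith
  have hd0 : d ≠ ⊥ := ne_bot_of_le hq hd
  have hnd := one_le_nm hd0
  have hndx : nm d ≤ x ^ n := nm_le_of_le hq hd
  set Q : ℝ := cnd K (qi K q) with hQ
  have hQ1 : 1 ≤ Q := one_le_cnd K hq.one_le
  have hQe : Q = B * x ^ n := by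
    rw [hQ]
    unfold cnd
    rw [nm_qi]
  set M : ℝ := x ^ (1 - 2 * ε₁) with hM
  have hM1 : 1 ≤ M := Real.one_le_rpow hx1 (by linarith)
  have hMx : M ≤ x := by
    conv_rhs => rw [← Real.rpow_one x]
    exact Real.rpow_le_rpow_of_exponent_le hx1 (by linarith)
  have hxn : x ≤ x ^ n := le_self_pow₀ hx1 (by omega)
  have hxQ : x ^ n ≤ Q := by rw [hQe]; exact le_mul_of_one_le_left (by positivity) hB1
  have hMQ : M ≤ Q := hMx.trans (hxn.trans hxQ)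
  obtain ⟨hL0, hL1⟩ := logs_le (n := n) hB1 (show 0 < ε₁ / 16 by positivity) hx1 hM1 hMx
  rw [← hQe] at hL0 hL1
  set L : ℝ := 1 + Real.log Q + Real.log M with hL
  have hL4 : L ^ 4 ≤ c_L ^ 4 * x ^ (ε₁ / 4) := by
    calc L ^ 4 ≤ (c_L * x ^ (ε₁ / 16)) ^ 4 := by gcongr
      _ = _ := by
          rw [mul_pow, ← Real.rpow_natCast (x ^ (ε₁ / 16)), ← Real.rpow_mul hx0.le]
          congr 2
          push_cast
          ring
  set R : ℝ := Q ^ (1 + δ') * M ^ 2 with hR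
  have hQR : Q ≤ R := by
    have h1 : Q ≤ Q ^ (1 + δ') := by
      conv_lhs => rw [← Real.rpow_one Q]
      exact Real.rpow_le_rpow_of_exponent_le hQ1 (by linarith)
    have h2 : (1 : ℝ) ≤ M ^ 2 := one_le_pow₀ hM1
    rw [hR]
    calc Q = Q * 1 := by ring
      _ ≤ Q ^ (1 + δ') * M ^ 2 := by gcongr
  have hR1 : 1 ≤ R := hQ1.trans hQR
  have hR0 : 0 < R := by linarith
  -- basic facts for the pairs
  have hXp : ∀ p ∈ X, p.1 ≠ ⊥ ∧ p.2 ≠ ⊥ ∧ p.1 ⊔ p.2 = ⊤ := fun p hp =>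
    ⟨(hX p hp).1.1, (hX p hp).1.2.1, (hX p hp).1.2.2.1⟩
  set w : Ideal (𝓞 K) × Ideal (𝓞 K) → ℝ := fun p => ‖Dd (qi K q) Q M p.1 p.2‖ with hw
  set X1 := X.filter (fun p => nm p.1 * nm p.2 ≤ R) with hX1
  set X2 := X.filter (fun p => ¬ nm p.1 * nm p.2 ≤ R) with hX2
  have hsplit : ∑ p ∈ X, w p = ∑ p ∈ X1, w p + ∑ p ∈ X2, w p :=
    (Finset.sum_filter_add_sum_filter_not X _ w).symm
  set T : ℝ := x ^ ((n : ℝ) / 2 + 1 - ε₁) with hT
  have hnc : (0 : ℝ) ≤ nc (qi K q) d := Nat.cast_nonneg _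
  -- the near part
  have hnear : (nc (qi K q) d : ℝ) * ∑ p ∈ X1, w p ≤ C1 * T := by
    rcases X1.eq_empty_or_nonempty with hE | ⟨p0, hp0⟩
    · rw [hE, Finset.sum_empty, mul_zero]; positivity
    set L₀ : ℝ := max 1 (c * nm d ^ 2 / x ^ n) with hL₀
    have hL₀1 : 1 ≤ L₀ := le_max_left _ _
    have hPL : ∀ p ∈ X1, L₀ ≤ nm p.1 * nm p.2 ∧ nm p.1 * nm p.2 ≤ R := by
      intro p hp
      obtain ⟨hpX, hpR⟩ := Finset.mem_filter.mp hp
      obtain ⟨h1, h2, -⟩ := hXp p hpX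
      refine ⟨max_le ?_ ?_, hpR⟩
      · exact one_le_mul_of_one_le_of_one_le (one_le_nm h1) (one_le_nm h2)
      · rw [div_le_iff₀ (by positivity)]
        exact (hX p hpX).2
    have hL₀R : L₀ ≤ R := (hPL p0 hp0).1.trans (hPL p0 hp0).2
    have h1 := hC_P (qi K q) d L₀ R X1 (ne_bot_of_le hq le_rfl) hd hL₀1 hL₀R
      (fun p hp => ⟨(hX p (Finset.mem_filter.mp hp).1).1, hPL p hp⟩)
    have h2 : ∑ p ∈ X1, w p ≤ |C_T| * L ^ 4 *
        ∑ p ∈ X1, (2 : ℝ) ^ ((pf p.1).card + (pf p.2).card) *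
          (nm p.1 * nm p.2) ^ (-(1 / 2) : ℝ) := by
      rw [Finset.mul_sum]
      refine Finset.sum_le_sum fun p hp => ?_
      obtain ⟨a1, a2, a3⟩ := hXp p (Finset.mem_filter.mp hp).1
      have n1 := one_le_nm a1
      have n2 := one_le_nm a2
      refine (hC_T (qi K q) Q M p.1 p.2 hQ1 hM1 a1 a2 a3).trans ?_
      have c1 : C_T ≤ |C_T| := le_abs_self _
      have c2 : min 1 ((Q * M ^ 2 / (nm p.1 * nm p.2)) ^ (A + 3)) ≤ 1 := min_le_left _ _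
      have c3 : 0 ≤ min 1 ((Q * M ^ 2 / (nm p.1 * nm p.2)) ^ (A + 3)) :=
        le_min zero_le_one (by positivity)
      calc C_T * (nm p.1 * nm p.2) ^ (-(1 / 2) : ℝ) * 2 ^ ((pf p.1).card + (pf p.2).card) *
            L ^ 4 * min 1 ((Q * M ^ 2 / (nm p.1 * nm p.2)) ^ (A + 3))
          ≤ |C_T| * (nm p.1 * nm p.2) ^ (-(1 / 2) : ℝ) * 2 ^ ((pf p.1).card + (pf p.2).card) *
            L ^ 4 * 1 := by gcongr
        _ = _ := by ring
    have hRe : R ^ e ≤ B ^ (2 * e) * x ^ (ε₁ / 4) := by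
      have h3 : R ≤ B ^ 2 * x ^ (2 * n + 2) := by
        rw [hR]
        have h4 : Q ^ (1 + δ') ≤ Q ^ (2 : ℕ) := by
          rw [← Real.rpow_natCast]
          exact Real.rpow_le_rpow_of_exponent_le hQ1 (by push_cast; linarith)
        calc Q ^ (1 + δ') * M ^ 2 ≤ Q ^ 2 * x ^ 2 := by gcongr
          _ = B ^ 2 * x ^ (2 * n + 2) := by rw [hQe]; ring
      calc R ^ e ≤ (B ^ 2 * x ^ (2 * n + 2)) ^ e := by gcongr
        _ = B ^ (2 * e) * x ^ (ε₁ / 4) := by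
            rw [Real.mul_rpow (by positivity) (by positivity), ← Real.rpow_natCast B,
              ← Real.rpow_mul (by positivity), ← Real.rpow_natCast x, ← Real.rpow_mul hx0.le]
            congr 2
            rw [← hen]
            push_cast
            ring
    have hR2 : R ^ (1 / 2 : ℝ) ≤ B * x ^ ((n : ℝ) / 2 + ε₁ / 4 + (1 - 2 * ε₁)) := by
      have h3 : R ^ (1 / 2 : ℝ) = Q ^ ((1 + δ') / 2) * M := by
        rw [hR, Real.mul_rpow (by positivity) (by positivity), ← Real.rpow_mul (by linarith),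
          ← Real.rpow_natCast M, ← Real.rpow_mul (by linarith)]
        norm_num
        left
        congr 1
        ring
      rw [h3, hQe, Real.mul_rpow (by positivity) (by positivity)]
      have h4 : B ^ ((1 + δ') / 2) ≤ B := by
        conv_rhs => rw [← Real.rpow_one B]
        exact Real.rpow_le_rpow_of_exponent_le hB1 (by linarith)
      have h5 : (x ^ n) ^ ((1 + δ') / 2) = x ^ ((n : ℝ) / 2 + ε₁ / 4) := by
        rw [← Real.rpow_natCast x, ← Real.rpow_mul hx0.le]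
        congr 1
        rw [← hδ'n]
        ring
      rw [h5, Real.rpow_add hx0 _ (1 - 2 * ε₁), ← hM]
      calc B ^ ((1 + δ') / 2) * x ^ ((n : ℝ) / 2 + ε₁ / 4) * M
          ≤ B * x ^ ((n : ℝ) / 2 + ε₁ / 4) * M := by gcongr
        _ = _ := by ring
    have hL₀2 : nm d * L₀ ^ (-(1 / 2) : ℝ) ≤ c ^ (-(1 / 2) : ℝ) * x ^ ((n : ℝ) / 2) := by
      have h3 : L₀ ^ (-(1 / 2) : ℝ) ≤ (c * nm d ^ 2 / x ^ n) ^ (-(1 / 2) : ℝ) :=
        Real.rpow_le_rpow_of_nonpos (by positivity) (le_max_right _ _) (by norm_num)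
      have h4 : (c * nm d ^ 2 / x ^ n) ^ (-(1 / 2) : ℝ) =
          c ^ (-(1 / 2) : ℝ) * (nm d)⁻¹ * x ^ ((n : ℝ) / 2) := by
        rw [Real.div_rpow (by positivity) (by positivity), Real.mul_rpow (by positivity)
          (by positivity), ← Real.rpow_natCast (nm d), ← Real.rpow_mul (by linarith),
          ← Real.rpow_natCast x, ← Real.rpow_mul hx0.le]
        have e1 : (((2 : ℕ) : ℝ) * -(1 / 2)) = -1 := by norm_num
        have e2 : ((n : ℝ) * -(1 / 2)) = -((n : ℝ) / 2) := by ring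
        rw [e1, e2, Real.rpow_neg_one, Real.rpow_neg hx0.le, div_inv_eq_mul]
      calc nm d * L₀ ^ (-(1 / 2) : ℝ) ≤ nm d * (c ^ (-(1 / 2) : ℝ) * (nm d)⁻¹ *
            x ^ ((n : ℝ) / 2)) := by
            rw [← h4]
            gcongr
        _ = c ^ (-(1 / 2) : ℝ) * x ^ ((n : ℝ) / 2) := by
            field_simp
    have hW : L₀ ^ (-(1 / 2) : ℝ) + R ^ (1 / 2 : ℝ) / nm d ≥ 0 := by positivity
    have h6 : (nc (qi K q) d : ℝ) * uc d * (L₀ ^ (-(1 / 2) : ℝ) + R ^ (1 / 2 : ℝ) / nm d) ≤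
        |C_H| * (c ^ (-(1 / 2) : ℝ) * x ^ ((n : ℝ) / 2) +
          B * x ^ ((n : ℝ) / 2 + ε₁ / 4 + (1 - 2 * ε₁))) := by
      calc (nc (qi K q) d : ℝ) * uc d * (L₀ ^ (-(1 / 2) : ℝ) + R ^ (1 / 2 : ℝ) / nm d)
          ≤ (|C_H| * nm d) * (L₀ ^ (-(1 / 2) : ℝ) + R ^ (1 / 2 : ℝ) / nm d) := by
            refine mul_le_mul_of_nonneg_right (hHQ3.trans ?_) hW
            have := le_abs_self C_H
            gcongr
        _ = |C_H| * (nm d * L₀ ^ (-(1 / 2) : ℝ) + R ^ (1 / 2 : ℝ)) := by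
            field_simp
        _ ≤ _ := by gcongr
    have h7 : x ^ (ε₁ / 4) * x ^ (ε₁ / 4) * (c ^ (-(1 / 2) : ℝ) * x ^ ((n : ℝ) / 2) +
          B * x ^ ((n : ℝ) / 2 + ε₁ / 4 + (1 - 2 * ε₁))) ≤ (c ^ (-(1 / 2) : ℝ) + B) * T := by
      have k1 : x ^ (ε₁ / 4) * x ^ (ε₁ / 4) * x ^ ((n : ℝ) / 2) ≤ T := by
        rw [← Real.rpow_add hx0, ← Real.rpow_add hx0, hT]
        exact Real.rpow_le_rpow_of_exponent_le hx1 (by linarith)
      have k2 : x ^ (ε₁ / 4) * x ^ (ε₁ / 4) * x ^ ((n : ℝ) / 2 + ε₁ / 4 + (1 - 2 * ε₁)) ≤ T := by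
        rw [← Real.rpow_add hx0, ← Real.rpow_add hx0, hT]
        exact Real.rpow_le_rpow_of_exponent_le hx1 (by linarith)
      have k3 : 0 ≤ c ^ (-(1 / 2) : ℝ) := by positivity
      calc x ^ (ε₁ / 4) * x ^ (ε₁ / 4) * (c ^ (-(1 / 2) : ℝ) * x ^ ((n : ℝ) / 2) +
            B * x ^ ((n : ℝ) / 2 + ε₁ / 4 + (1 - 2 * ε₁)))
          = c ^ (-(1 / 2) : ℝ) * (x ^ (ε₁ / 4) * x ^ (ε₁ / 4) * x ^ ((n : ℝ) / 2)) +
            B * (x ^ (ε₁ / 4) * x ^ (ε₁ / 4) *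
              x ^ ((n : ℝ) / 2 + ε₁ / 4 + (1 - 2 * ε₁))) := by ring
        _ ≤ c ^ (-(1 / 2) : ℝ) * T + B * T := by gcongr
        _ = _ := by ring
    calc (nc (qi K q) d : ℝ) * ∑ p ∈ X1, w p
        ≤ (nc (qi K q) d : ℝ) * (|C_T| * L ^ 4 * (C_P * R ^ e * uc d *
          (L₀ ^ (-(1 / 2) : ℝ) + R ^ (1 / 2 : ℝ) / nm d))) := by
          refine mul_le_mul_of_nonneg_left (h2.trans ?_) hnc
          exact mul_le_mul_of_nonneg_left h1 (by positivity)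
      _ ≤ (nc (qi K q) d : ℝ) * (|C_T| * L ^ 4 * (|C_P| * R ^ e * uc d *
          (L₀ ^ (-(1 / 2) : ℝ) + R ^ (1 / 2 : ℝ) / nm d))) := by
          have := le_abs_self C_P
          gcongr
      _ = |C_T| * L ^ 4 * |C_P| * R ^ e * ((nc (qi K q) d : ℝ) * uc d *
          (L₀ ^ (-(1 / 2) : ℝ) + R ^ (1 / 2 : ℝ) / nm d)) := by ring
      _ ≤ |C_T| * (c_L ^ 4 * x ^ (ε₁ / 4)) * |C_P| * (B ^ (2 * e) * x ^ (ε₁ / 4)) *
          (|C_H| * (c ^ (-(1 / 2) : ℝ) * x ^ ((n : ℝ) / 2) +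
            B * x ^ ((n : ℝ) / 2 + ε₁ / 4 + (1 - 2 * ε₁)))) := by gcongr
      _ = (|C_T| * |C_P| * |C_H| * c_L ^ 4 * B ^ (2 * e)) *
          (x ^ (ε₁ / 4) * x ^ (ε₁ / 4) * (c ^ (-(1 / 2) : ℝ) * x ^ ((n : ℝ) / 2) +
            B * x ^ ((n : ℝ) / 2 + ε₁ / 4 + (1 - 2 * ε₁)))) := by ring
      _ ≤ (|C_T| * |C_P| * |C_H| * c_L ^ 4 * B ^ (2 * e)) *
          ((c ^ (-(1 / 2) : ℝ) + B) * T) := by gcongr
      _ = C1 * T := by rw [hC1]; ring
  -- the far part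
  have hfar : (nc (qi K q) d : ℝ) * ∑ p ∈ X2, w p ≤ C2 * T := by
    have h1 : ∀ p ∈ X2, w p ≤ |C_T| * C_V ^ 2 * (c_L ^ 4 * x ^ (ε₁ / 4)) * (x ^ n)⁻¹ *
        ((nm p.1 * nm p.2) ^ 2)⁻¹ := by
      intro p hp
      obtain ⟨hpX, hpR⟩ := Finset.mem_filter.mp hp
      rw [not_le] at hpR
      obtain ⟨a1, a2, a3⟩ := hXp p hpX
      have n1 := one_le_nm a1
      have n2 := one_le_nm a2
      set P : ℝ := nm p.1 * nm p.2 with hP
      have hP1 : 1 ≤ P := one_le_mul_of_one_le_of_one_le n1 n2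
      have hP0 : 0 < P := by linarith
      have h2 := hC_T (qi K q) Q M p.1 p.2 hQ1 hM1 a1 a2 a3
      have h3 : min 1 ((Q * M ^ 2 / P) ^ (A + 3)) ≤ (x ^ n)⁻¹ * (P ^ 2)⁻¹ := by
        refine (min_le_right _ _).trans ((far_pow hA hQ1 hM1 hMQ hpR.le).trans ?_)
        have h4 : x ^ n ≤ P := hxQ.trans (hQR.trans hpR.le)
        rw [← mul_inv]
        refine inv_anti₀ (by positivity) ?_
        calc x ^ n * P ^ 2 ≤ P * P ^ 2 := by gcongr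
          _ = P ^ 3 := by ring
      have h5 : (2 : ℝ) ^ ((pf p.1).card + (pf p.2).card) ≤ C_V ^ 2 * P ^ (1 / 2 : ℝ) := by
        rw [pow_add]
        have b1 := hC_V p.1 a1
        have b2 := hC_V p.2 a2
        calc (2 : ℝ) ^ (pf p.1).card * 2 ^ (pf p.2).card
            ≤ (C_V * nm p.1 ^ (1 / 2 : ℝ)) * (C_V * nm p.2 ^ (1 / 2 : ℝ)) := by gcongr
          _ = C_V ^ 2 * P ^ (1 / 2 : ℝ) := by
              rw [hP, Real.mul_rpow (by linarith) (by linarith)]; ring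
      have h6 : P ^ (-(1 / 2) : ℝ) * P ^ (1 / 2 : ℝ) = 1 := by
        rw [← Real.rpow_add hP0]; norm_num
      have h7 : 0 ≤ min 1 ((Q * M ^ 2 / P) ^ (A + 3)) := le_min zero_le_one (by positivity)
      calc w p ≤ C_T * P ^ (-(1 / 2) : ℝ) * 2 ^ ((pf p.1).card + (pf p.2).card) *
            L ^ 4 * min 1 ((Q * M ^ 2 / P) ^ (A + 3)) := h2
        _ ≤ |C_T| * P ^ (-(1 / 2) : ℝ) * (C_V ^ 2 * P ^ (1 / 2 : ℝ)) *
            (c_L ^ 4 * x ^ (ε₁ / 4)) * ((x ^ n)⁻¹ * (P ^ 2)⁻¹) := by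
            have c1 : C_T ≤ |C_T| := le_abs_self _
            gcongr
        _ = |C_T| * C_V ^ 2 * (c_L ^ 4 * x ^ (ε₁ / 4)) * (x ^ n)⁻¹ * (P ^ 2)⁻¹ *
            (P ^ (-(1 / 2) : ℝ) * P ^ (1 / 2 : ℝ)) := by ring
        _ = _ := by rw [h6, mul_one]
    have h2 : ∑ p ∈ X2, w p ≤ |C_T| * C_V ^ 2 * (c_L ^ 4 * x ^ (ε₁ / 4)) * (x ^ n)⁻¹ * S := by
      refine (Finset.sum_le_sum h1).trans ?_
      rw [← Finset.mul_sum]
      refine mul_le_mul_of_nonneg_left ?_ (by positivity)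
      exact hS X2 fun p hp => ⟨(hXp p (Finset.mem_filter.mp hp).1).1,
        (hXp p (Finset.mem_filter.mp hp).1).2.1⟩
    have h3 : (nc (qi K q) d : ℝ) ≤ |C_H| * x ^ n := by
      have u1 : (1 : ℝ) ≤ uc d := by exact_mod_cast uc_pos hd0
      calc (nc (qi K q) d : ℝ) ≤ nc (qi K q) d * uc d := le_mul_of_one_le_right hnc u1
        _ ≤ C_H * nm d := hHQ3
        _ ≤ |C_H| * x ^ n := by
            have := le_abs_self C_H
            gcongr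
    have h4 : x ^ (ε₁ / 4) ≤ T := by
      rw [hT]
      exact Real.rpow_le_rpow_of_exponent_le hx1 (by linarith)
    calc (nc (qi K q) d : ℝ) * ∑ p ∈ X2, w p
        ≤ (|C_H| * x ^ n) * (|C_T| * C_V ^ 2 * (c_L ^ 4 * x ^ (ε₁ / 4)) * (x ^ n)⁻¹ * S) := by
          gcongr
      _ = C2 * x ^ (ε₁ / 4) := by
          rw [hC2]
          field_simp
      _ ≤ C2 * T := by gcongr
  -- the conclusion
  have hfin : (C1 + C2) ≤ η * c_H * x ^ ε₁ := by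
    have h1 : ((C1 + C2) / (η * c_H)) ^ (1 / ε₁) ≤ x :=
      hq₂.trans (by rw [hx]; exact_mod_cast hqq₂)
    have h2 : (C1 + C2) / (η * c_H) ≤ x ^ ε₁ := by
      calc (C1 + C2) / (η * c_H) = (((C1 + C2) / (η * c_H)) ^ (1 / ε₁)) ^ ε₁ := by
            rw [← Real.rpow_mul (by positivity), one_div, inv_mul_cancel₀ hε₁.ne', Real.rpow_one]
        _ ≤ x ^ ε₁ := by gcongr
    rw [div_le_iff₀ (by positivity)] at h2
    linarith
  rw [hsplit, mul_add]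
  calc (nc (qi K q) d : ℝ) * ∑ p ∈ X1, w p + (nc (qi K q) d : ℝ) * ∑ p ∈ X2, w p
      ≤ C1 * T + C2 * T := add_le_add hnear hfar
    _ = (C1 + C2) * T := by ring
    _ ≤ (η * c_H * x ^ ε₁) * T := by gcongr
    _ = η * (c_H * x ^ ((n : ℝ) / 2 + 1)) := by
        have h1 : x ^ ((n : ℝ) / 2 + 1) = x ^ ε₁ * T := by
          rw [hT, ← Real.rpow_add hx0]; congr 1; ring
        rw [h1]; ring
    _ ≤ η * nc (qi K q) (qi K q) := by gcongr

end Pool.Agent.H46.CV
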