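import Pool.Agent.H37.CV.Targets
import Pool.Agent.H96.CV.DS
import Pool.Agent.H46.CV.DL

/-!
Module DR of the board cmv_modules: the real relations with the congruence.
-/

set_option autoImplicit false

open NumberField NumberField.InfinitePlace Finset

namespace Pool.Agent.H46.CV

open Pool.Agent.H37.CV Pool.Agent.H28.RC Pool.Agent.H25.HK Pool.Agent.H96.CV

/-- the pairs of different natural numbers which are congruent up to the sign modulo `q` -/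
theorem cong_sum_lt (e : ℝ) (he : 0 < e) (he1 : e ≤ 1) : ∃ Z : ℝ, 0 ≤ Z ∧ ∀ q : ℕ, 1 ≤ q →
    ∀ S : Finset (ℕ × ℕ),
    (∀ s ∈ S, 1 ≤ s.1 ∧ s.1 < s.2 ∧ ((q : ℤ) ∣ (s.1 : ℤ) - s.2 ∨ (q : ℤ) ∣ (s.1 : ℤ) + s.2)) →
    ∑ s ∈ S, ((s.1 : ℝ) * s.2) ^ (-(1 + e)) ≤ Z * (q : ℝ) ^ (-(1 : ℝ)) := by
  classical
  set f : ℕ → ℝ := fun k => (k : ℝ) ^ (-(1 + e)) with hf
  have hfs : Summable f := by
    rw [hf, Real.summable_nat_rpow]; linarith
  have hf0 : ∀ k, 0 ≤ f k := fun k => by positivity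
  set F : (ℕ × ℕ) → ℝ := fun z => f z.1 * f z.2 with hF
  have hFs : Summable F := hfs.mul_of_nonneg hfs hf0 hf0
  have hF0 : ∀ z, 0 ≤ F z := fun z => mul_nonneg (hf0 _) (hf0 _)
  refine ⟨8 * ∑' z, F z, by positivity, fun q hq S hS => ?_⟩
  have hq' : (1 : ℝ) ≤ q := by exact_mod_cast hq
  have hq0 : (0 : ℝ) < q := by linarith
  -- the two parts
  have hpart : ∀ (S' : Finset (ℕ × ℕ)) (k : ℕ × ℕ → ℕ), S' ⊆ S → (∀ s ∈ S', 1 ≤ k s) →
      (∀ s ∈ S', (q : ℝ) * k s ≤ 2 * s.2) → (Set.InjOn (fun s => (s.1, k s)) S') →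
      ∑ s ∈ S', ((s.1 : ℝ) * s.2) ^ (-(1 + e)) ≤ 4 * (∑' z, F z) * (q : ℝ) ^ (-(1 : ℝ)) := by
    intro S' k hS' hk1 hk2 hinj
    have h1 : ∀ s ∈ S', ((s.1 : ℝ) * s.2) ^ (-(1 + e)) ≤
        4 * (q : ℝ) ^ (-(1 : ℝ)) * F (s.1, k s) := by
      intro s hs
      have a1 : (1 : ℝ) ≤ s.1 := by exact_mod_cast (hS s (hS' hs)).1
      have a2 : (1 : ℝ) ≤ k s := by exact_mod_cast hk1 s hs
      have a3 := hk2 s hs
      have a4 : (q : ℝ) / 2 * k s ≤ s.2 := by linarith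
      have a5 : (0 : ℝ) < (q : ℝ) / 2 * k s := by positivity
      have a6 : -(1 + e) ≤ 0 := by linarith
      have a7 := Real.rpow_le_rpow_of_nonpos a5 a4 a6
      calc ((s.1 : ℝ) * s.2) ^ (-(1 + e)) = (s.1 : ℝ) ^ (-(1 + e)) * (s.2 : ℝ) ^ (-(1 + e)) := by
            rw [Real.mul_rpow (by positivity) (by positivity)]
        _ ≤ (s.1 : ℝ) ^ (-(1 + e)) * ((q : ℝ) / 2 * k s) ^ (-(1 + e)) :=
            mul_le_mul_of_nonneg_left a7 (by positivity)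
        _ = (2 : ℝ) ^ (1 + e) * (q : ℝ) ^ (-(1 + e)) * F (s.1, k s) := by
            rw [Real.mul_rpow (by positivity) (by positivity), Real.div_rpow (by positivity)
              (by positivity), Real.rpow_neg (by norm_num : (0 : ℝ) ≤ 2), div_inv_eq_mul]
            simp only [hF, hf]
            ring
        _ ≤ 4 * (q : ℝ) ^ (-(1 : ℝ)) * F (s.1, k s) := by
            have b1 : (2 : ℝ) ^ (1 + e) ≤ 4 := by
              calc (2 : ℝ) ^ (1 + e) ≤ (2 : ℝ) ^ (2 : ℝ) :=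
                    Real.rpow_le_rpow_of_exponent_le (by norm_num) (by linarith)
                _ = 4 := by norm_num
            have b2 : (q : ℝ) ^ (-(1 + e)) ≤ (q : ℝ) ^ (-(1 : ℝ)) :=
              Real.rpow_le_rpow_of_exponent_le hq' (by linarith)
            have b3 := hF0 (s.1, k s)
            gcongr
    calc ∑ s ∈ S', ((s.1 : ℝ) * s.2) ^ (-(1 + e))
        ≤ ∑ s ∈ S', 4 * (q : ℝ) ^ (-(1 : ℝ)) * F (s.1, k s) := Finset.sum_le_sum h1
      _ = 4 * (q : ℝ) ^ (-(1 : ℝ)) * ∑ z ∈ S'.image (fun s => (s.1, k s)), F z := by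
          rw [Finset.sum_image hinj, Finset.mul_sum]
      _ ≤ 4 * (q : ℝ) ^ (-(1 : ℝ)) * ∑' z, F z := by
          gcongr
          exact hFs.sum_le_tsum _ fun z _ => hF0 z
      _ = _ := by ring
  set S1 := S.filter (fun s => (q : ℤ) ∣ (s.1 : ℤ) - s.2) with hS1
  set S2 := S.filter (fun s => ¬ (q : ℤ) ∣ (s.1 : ℤ) - s.2) with hS2
  have hq1 := hpart S1 (fun s => (s.2 - s.1) / q) (Finset.filter_subset _ _)
    (by
      intro s hs
      obtain ⟨hsS, hd⟩ := Finset.mem_filter.mp hs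
      obtain ⟨c1, c2, -⟩ := hS s hsS
      have hd' : q ∣ s.2 - s.1 := by
        have : (q : ℤ) ∣ ((s.2 - s.1 : ℕ) : ℤ) := by
          rw [Nat.cast_sub c2.le]
          have := (dvd_neg.mpr hd)
          rwa [neg_sub] at this
        exact_mod_cast this
      exact Nat.div_pos (Nat.le_of_dvd (by omega) hd') (by omega))
    (by
      intro s hs
      obtain ⟨hsS, -⟩ := Finset.mem_filter.mp hs
      have h1 : q * ((s.2 - s.1) / q) ≤ s.2 - s.1 := Nat.mul_div_le _ _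
      have h2 : ((q * ((s.2 - s.1) / q) : ℕ) : ℝ) ≤ ((2 * s.2 : ℕ) : ℝ) := by
        exact_mod_cast h1.trans (by omega)
      push_cast at h2 ⊢
      exact h2)
    (by
      intro s hs s' hs' h
      obtain ⟨hsS, hd⟩ := Finset.mem_filter.mp (Finset.mem_coe.mp hs)
      obtain ⟨hsS', hd'⟩ := Finset.mem_filter.mp (Finset.mem_coe.mp hs')
      obtain ⟨c1, c2, -⟩ := hS s hsS
      obtain ⟨c1', c2', -⟩ := hS s' hsS'
      obtain ⟨h1, h2⟩ := Prod.mk.inj h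
      have e1 : q ∣ s.2 - s.1 := by
        have : (q : ℤ) ∣ ((s.2 - s.1 : ℕ) : ℤ) := by
          rw [Nat.cast_sub c2.le]
          have := (dvd_neg.mpr hd)
          rwa [neg_sub] at this
        exact_mod_cast this
      have e2 : q ∣ s'.2 - s'.1 := by
        have : (q : ℤ) ∣ ((s'.2 - s'.1 : ℕ) : ℤ) := by
          rw [Nat.cast_sub c2'.le]
          have := (dvd_neg.mpr hd')
          rwa [neg_sub] at this
        exact_mod_cast this
      have e3 := Nat.mul_div_cancel' e1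
      have e4 := Nat.mul_div_cancel' e2
      rw [h2] at e3
      exact Prod.ext h1 (by omega))
  have hq2 := hpart S2 (fun s => (s.2 + s.1) / q) (Finset.filter_subset _ _)
    (by
      intro s hs
      obtain ⟨hsS, hd⟩ := Finset.mem_filter.mp hs
      obtain ⟨c1, c2, c3⟩ := hS s hsS
      have hd' : q ∣ s.2 + s.1 := by
        have := c3.resolve_left hd
        rw [add_comm] at this
        exact_mod_cast this
      exact Nat.div_pos (Nat.le_of_dvd (by omega) hd') (by omega))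
    (by
      intro s hs
      obtain ⟨hsS, -⟩ := Finset.mem_filter.mp hs
      obtain ⟨c1, c2, c3⟩ := hS s hsS
      have h1 : q * ((s.2 + s.1) / q) ≤ s.2 + s.1 := Nat.mul_div_le _ _
      have h2 : ((q * ((s.2 + s.1) / q) : ℕ) : ℝ) ≤ ((2 * s.2 : ℕ) : ℝ) := by
        exact_mod_cast h1.trans (by omega)
      push_cast at h2 ⊢
      exact h2)
    (by
      intro s hs s' hs' h
      obtain ⟨hsS, hd⟩ := Finset.mem_filter.mp (Finset.mem_coe.mp hs)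
      obtain ⟨hsS', hd'⟩ := Finset.mem_filter.mp (Finset.mem_coe.mp hs')
      obtain ⟨c1, c2, c3⟩ := hS s hsS
      obtain ⟨c1', c2', c3'⟩ := hS s' hsS'
      obtain ⟨h1, h2⟩ := Prod.mk.inj h
      have e1 : q ∣ s.2 + s.1 := by
        have := c3.resolve_left hd
        rw [add_comm] at this
        exact_mod_cast this
      have e2 : q ∣ s'.2 + s'.1 := by
        have := c3'.resolve_left hd'
        rw [add_comm] at this
        exact_mod_cast this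
      have e3 := Nat.mul_div_cancel' e1
      have e4 := Nat.mul_div_cancel' e2
      rw [h2] at e3
      exact Prod.ext h1 (by omega))
  have hsplit : ∑ s ∈ S, ((s.1 : ℝ) * s.2) ^ (-(1 + e)) =
      ∑ s ∈ S1, ((s.1 : ℝ) * s.2) ^ (-(1 + e)) + ∑ s ∈ S2, ((s.1 : ℝ) * s.2) ^ (-(1 + e)) :=
    (Finset.sum_filter_add_sum_filter_not S _ _).symm
  rw [hsplit]
  linarith

theorem cong_sum (e : ℝ) (he : 0 < e) (he1 : e ≤ 1) : ∃ Z : ℝ, 0 ≤ Z ∧ ∀ q : ℕ, 1 ≤ q →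
    ∀ S : Finset (ℕ × ℕ),
    (∀ s ∈ S, 1 ≤ s.1 ∧ 1 ≤ s.2 ∧ s.1 ≠ s.2 ∧
      ((q : ℤ) ∣ (s.1 : ℤ) - s.2 ∨ (q : ℤ) ∣ (s.1 : ℤ) + s.2)) →
    ∑ s ∈ S, ((s.1 : ℝ) * s.2) ^ (-(1 + e)) ≤ Z * (q : ℝ) ^ (-(1 : ℝ)) := by
  classical
  obtain ⟨Z, hZ, h⟩ := cong_sum_lt e he he1
  refine ⟨2 * Z, by positivity, fun q hq S hS => ?_⟩
  have h1 := h q hq (S.filter (fun s => s.1 < s.2)) (fun s hs => by
    obtain ⟨a, b⟩ := Finset.mem_filter.mp hs
    exact ⟨(hS s a).1, b, (hS s a).2.2.2⟩)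
  have h2 := h q hq ((S.filter (fun s => ¬ s.1 < s.2)).image Prod.swap) (fun s hs => by
    obtain ⟨s', hs', rfl⟩ := Finset.mem_image.mp hs
    obtain ⟨a, b⟩ := Finset.mem_filter.mp hs'
    obtain ⟨c1, c2, c3, c4⟩ := hS s' a
    refine ⟨c2, by simp only [Prod.fst_swap, Prod.snd_swap]; omega, ?_⟩
    simp only [Prod.fst_swap, Prod.snd_swap]
    rcases c4 with c4 | c4
    · left
      have := (dvd_neg.mpr c4)
      rwa [neg_sub] at this
    · right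
      rwa [add_comm])
  rw [Finset.sum_image (Prod.swap_injective.injOn)] at h2
  have hsplit := (Finset.sum_filter_add_sum_filter_not S (fun s => s.1 < s.2)
    (fun s => ((s.1 : ℝ) * s.2) ^ (-(1 + e)))).symm
  rw [hsplit]
  have h3 : ∑ s ∈ S with ¬ s.1 < s.2, ((s.1 : ℝ) * s.2) ^ (-(1 + e)) =
      ∑ s ∈ S with ¬ s.1 < s.2, ((s.swap.1 : ℝ) * s.swap.2) ^ (-(1 + e)) := by
    refine Finset.sum_congr rfl fun s _ => ?_
    simp only [Prod.fst_swap, Prod.snd_swap, mul_comm]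
  rw [h3]
  linarith

/-- the sum over the pairs of ideals with given norms -/
theorem fiber_sum {F α : Type} [Field F] [NumberField F] [DecidableEq α] (C e : ℝ) (hC : 0 ≤ C)
    (hDV : ∀ n : ℕ, 1 ≤ n → ∀ X : Finset (Ideal (𝓞 F)), (∀ I ∈ X, Ideal.absNorm I = n) →
        (X.card : ℝ) ≤ C * (n : ℝ) ^ e)
    (X : Finset α) (g : α → Ideal (𝓞 F) × Ideal (𝓞 F))
    (hg : Set.InjOn g X) (hgb : ∀ p ∈ X, (g p).1 ≠ ⊥ ∧ (g p).2 ≠ ⊥) (T : ℕ × ℕ → ℝ)
    (hT : ∀ s, 0 ≤ T s) :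
    ∑ p ∈ X, T (Ideal.absNorm (g p).1, Ideal.absNorm (g p).2) ≤
      ∑ s ∈ X.image (fun p => (Ideal.absNorm (g p).1, Ideal.absNorm (g p).2)),
        C ^ 2 * ((s.1 : ℝ) * s.2) ^ e * T s := by
  classical
  rw [Finset.sum_comp T (fun p => (Ideal.absNorm (g p).1, Ideal.absNorm (g p).2))]
  refine Finset.sum_le_sum fun s hs => ?_
  rw [nsmul_eq_mul]
  refine mul_le_mul_of_nonneg_right ?_ (hT s)
  obtain ⟨p0, hp0, hp0s⟩ := Finset.mem_image.mp hs
  have hs1 : 1 ≤ s.1 := by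
    rw [← hp0s]
    exact Nat.one_le_iff_ne_zero.mpr (fun h => (hgb p0 hp0).1 (Ideal.absNorm_eq_zero_iff.mp h))
  have hs2 : 1 ≤ s.2 := by
    rw [← hp0s]
    exact Nat.one_le_iff_ne_zero.mpr (fun h => (hgb p0 hp0).2 (Ideal.absNorm_eq_zero_iff.mp h))
  set Y := X.filter (fun p => (Ideal.absNorm (g p).1, Ideal.absNorm (g p).2) = s) with hY
  have h1 : Y.card ≤ (Y.image (fun p => (g p).1)).card * (Y.image (fun p => (g p).2)).card := by
    rw [← Finset.card_product]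
    refine Finset.card_le_card_of_injOn g (fun p hp => ?_) (hg.mono (fun p hp => ?_))
    · rw [Finset.mem_coe, Finset.mem_product]
      exact ⟨Finset.mem_image_of_mem _ hp, Finset.mem_image_of_mem _ hp⟩
    · exact (Finset.mem_filter.mp hp).1
  have h2 := hDV s.1 hs1 (Y.image (fun p => (g p).1)) (fun I hI => by
    obtain ⟨p, hp, rfl⟩ := Finset.mem_image.mp hI
    exact congrArg Prod.fst (Finset.mem_filter.mp hp).2)
  have h3 := hDV s.2 hs2 (Y.image (fun p => (g p).2)) (fun I hI => by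
    obtain ⟨p, hp, rfl⟩ := Finset.mem_image.mp hI
    exact congrArg Prod.snd (Finset.mem_filter.mp hp).2)
  have h1' : (Y.card : ℝ) ≤ ((Y.image (fun p => (g p).1)).card : ℝ) *
      ((Y.image (fun p => (g p).2)).card : ℝ) := by exact_mod_cast h1
  calc (Y.card : ℝ) ≤ _ := h1'
    _ ≤ (C * (s.1 : ℝ) ^ e) * (C * (s.2 : ℝ) ^ e) := by gcongr
    _ = C ^ 2 * ((s.1 : ℝ) * s.2) ^ e := by
        rw [Real.mul_rpow (by positivity) (by positivity)]; ring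

/-- sums over the diagonal -/
theorem diag_sum : ∃ Z : ℝ, 0 ≤ Z ∧ ∀ S : Finset (ℕ × ℕ), (∀ s ∈ S, s.1 = s.2) →
    ∑ s ∈ S, ((s.1 : ℝ) * s.2) ^ (-(3 / 4) : ℝ) ≤ Z := by
  classical
  set f : ℕ → ℝ := fun k => (k : ℝ) ^ (-(3 / 2) : ℝ) with hf
  have hfs : Summable f := by
    rw [hf, Real.summable_nat_rpow]; norm_num
  have hf0 : ∀ k, 0 ≤ f k := fun k => by positivity
  refine ⟨∑' k, f k, tsum_nonneg hf0, fun S hS => ?_⟩
  have hinj : Set.InjOn Prod.fst (S : Set (ℕ × ℕ)) := by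
    intro s hs s' hs' h
    exact Prod.ext h ((hS s hs).symm.trans (h.trans (hS s' hs')))
  calc ∑ s ∈ S, ((s.1 : ℝ) * s.2) ^ (-(3 / 4) : ℝ) = ∑ s ∈ S, f s.1 := by
        refine Finset.sum_congr rfl fun s hs => ?_
        rw [← hS s hs, hf, ← pow_two, ← Real.rpow_natCast, ← Real.rpow_mul (by positivity)]
        norm_num
    _ = ∑ k ∈ S.image Prod.fst, f k := by rw [Finset.sum_image hinj]
    _ ≤ ∑' k, f k := hfs.sum_le_tsum _ fun z _ => hf0 z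

theorem log_sq_le {W : ℝ} (hW : 1 ≤ W) :
    (1 + Real.log (W ^ 2)) ^ 2 ≤ 529 * W ^ (3 / 16 : ℝ) := by
  have hW0 : 0 < W := by linarith
  have h1 : Real.log W ≤ W ^ (3 / 32 : ℝ) / (3 / 32) := Real.log_le_rpow_div hW0.le (by norm_num)
  have h2 : (1 : ℝ) ≤ W ^ (3 / 32 : ℝ) := Real.one_le_rpow hW (by norm_num)
  have h3 : 0 ≤ Real.log W := Real.log_nonneg hW
  have h4 : 1 + Real.log (W ^ 2) ≤ 23 * W ^ (3 / 32 : ℝ) := by
    rw [Real.log_pow]
    push_cast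
    linarith
  have h5 : 0 ≤ 1 + Real.log (W ^ 2) := by
    rw [Real.log_pow]
    positivity
  calc (1 + Real.log (W ^ 2)) ^ 2 ≤ (23 * W ^ (3 / 32 : ℝ)) ^ 2 := by gcongr
    _ = 529 * W ^ (3 / 16 : ℝ) := by
        rw [mul_pow, ← Real.rpow_natCast (W ^ (3 / 32 : ℝ)), ← Real.rpow_mul hW0.le]
        norm_num

theorem nm_eq_one {K : Type} [Field K] [NumberField K] {I : Ideal (𝓞 K)} (h : nm I = 1) :
    I = ⊤ := by
  unfold nm at h
  exact Ideal.absNorm_eq_one_iff.mp (by exact_mod_cast h)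

theorem nm_top (K : Type) [Field K] [NumberField K] : nm (⊤ : Ideal (𝓞 K)) = 1 := by
  unfold nm
  rw [Ideal.absNorm_top]
  norm_num

theorem pf_DR (hDE : H37.CV.T_DE) (hDT : H37.CV.T_DT) (hDV : H37.CV.T_DV) : H37.CV.T_DR := by
  classical
  intro K _ _ _ ε₁ η hε₁ hε₁' hη
  set n : ℕ := Module.finrank ℚ K with hn
  have hn1 : 1 ≤ n := Module.finrank_pos
  have hn1' : (1 : ℝ) ≤ n := by exact_mod_cast hn1
  set e : ℝ := 1 / (16 * ((n : ℝ) + 2)) with he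
  have he0 : 0 < e := by positivity
  have he48 : e ≤ 1 / 48 := by
    rw [he]
    apply one_div_le_one_div_of_le (by norm_num)
    linarith
  have hen : ((n : ℝ) + 2) * (2 * e) = 1 / 8 := by rw [he]; field_simp; norm_num
  obtain ⟨δ, C_E, q₁, hδ, hDE'⟩ := hDE K ε₁ hε₁ hε₁'
  obtain ⟨C_T, hC_T⟩ := hDT K 1
  obtain ⟨C_V, hC_V1, -, hC_V⟩ := (hDV K).1 e he0
  obtain ⟨C_I, hC_I1, hC_I, -⟩ := (hDV (Kp K)).1 e he0
  obtain ⟨Z_c, hZ_c, hcong⟩ := cong_sum e he0 (by linarith)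
  obtain ⟨Z_d, hZ_d, hdiag⟩ := diag_sum
  set B : ℝ := |(discr K : ℝ)| with hB
  have hB1 : 1 ≤ B := one_le_discr K
  have hlB := Real.log_nonneg hB1
  set c_L : ℝ := 1 + Real.log B + ((n : ℝ) + 1) * (1 / (1 / 16)) with hc_L
  have hc_L0 : 0 ≤ c_L := by positivity
  set c_M : ℝ := 1 + Real.log B + ((n : ℝ) + 1) * (1 / (δ / 64)) with hc_M
  have hc_M0 : 0 ≤ c_M := by positivity
  set Ka : ℝ := C_I ^ 2 * (|C_E| * C_V ^ 2) * (529 * Z_d) with hKa
  set Kb : ℝ := C_I ^ 2 * (|C_T| * C_V ^ 2 * c_M ^ 4) * Z_d with hKb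
  set Kc : ℝ := C_I ^ 2 * (|C_T| * C_V ^ 2 * c_L ^ 4 * B ^ (2 * e)) * Z_c with hKc
  have hlim : Filter.Tendsto (fun x : ℝ => Ka / Real.log x + Kb * x ^ (-(δ / 32)) +
      Kc * x ^ (-(5 / 8 : ℝ))) Filter.atTop (nhds 0) := by
    have t1 : Filter.Tendsto (fun x : ℝ => Ka / Real.log x) Filter.atTop (nhds 0) :=
      Real.tendsto_log_atTop.const_div_atTop Ka
    have t2 := (tendsto_rpow_neg_atTop (show 0 < δ / 32 by positivity)).const_mul Kb
    have t3 := (tendsto_rpow_neg_atTop (show (0 : ℝ) < 5 / 8 by norm_num)).const_mul Kc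
    have := (t1.add t2).add t3
    simpa using this
  obtain ⟨x₀, hx₀⟩ := Filter.eventually_atTop.1 (hlim.eventually (gt_mem_nhds hη))
  refine ⟨max q₁ ⌈x₀⌉₊, ?_⟩
  intro q hq hq0 X hX
  set x : ℝ := (q : ℝ) with hx
  have hx1 : (1 : ℝ) ≤ x := by rw [hx]; exact_mod_cast hq.one_le
  have hx2 : (2 : ℝ) ≤ x := by rw [hx]; exact_mod_cast hq.two_le
  have hx0 : 0 < x := by linarith
  have hlx : 0 < Real.log x := Real.log_pos (by linarith)
  have hxx₀ : x₀ ≤ x := by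
    have h1 : ⌈x₀⌉₊ ≤ q := (le_max_right _ _).trans hq0
    calc x₀ ≤ (⌈x₀⌉₊ : ℝ) := Nat.le_ceil _
      _ ≤ x := by rw [hx]; exact_mod_cast h1
  refine le_trans ?_ (hx₀ x hxx₀).le
  have hDE2 := hDE' q hq ((le_max_left _ _).trans hq0)
  set Q : ℝ := cnd K (qi K q) with hQ
  have hQ1 : 1 ≤ Q := one_le_cnd K hq.one_le
  have hQe : Q = B * x ^ n := by
    rw [hQ]
    unfold cnd
    rw [nm_qi]
  set M : ℝ := x ^ (1 - 2 * ε₁) with hM
  have hM1 : 1 ≤ M := Real.one_le_rpow hx1 (by linarith)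
  have hMx : M ≤ x := by
    conv_rhs => rw [← Real.rpow_one x]
    exact Real.rpow_le_rpow_of_exponent_le hx1 (by linarith)
  obtain ⟨hL0, hL1⟩ := logs_le (n := n) hB1 (show (0 : ℝ) < 1 / 16 by norm_num) hx1 hM1 hMx
  obtain ⟨-, hL1'⟩ := logs_le (n := n) hB1 (show 0 < δ / 64 by positivity) hx1 hM1 hMx
  rw [← hQe] at hL0 hL1 hL1'
  set L : ℝ := 1 + Real.log Q + Real.log M with hL
  have hL4 : L ^ 4 ≤ c_L ^ 4 * x ^ (1 / 4 : ℝ) := by
    calc L ^ 4 ≤ (c_L * x ^ (1 / 16 : ℝ)) ^ 4 := by gcongr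
      _ = _ := by
          rw [mul_pow, ← Real.rpow_natCast (x ^ (1 / 16 : ℝ)), ← Real.rpow_mul hx0.le]
          congr 2
          norm_num
  have hL4' : L ^ 4 ≤ c_M ^ 4 * x ^ (δ / 16) := by
    calc L ^ 4 ≤ (c_M * x ^ (δ / 64)) ^ 4 := by gcongr
      _ = _ := by
          rw [mul_pow, ← Real.rpow_natCast (x ^ (δ / 64)), ← Real.rpow_mul hx0.le]
          congr 2
          push_cast
          ring
  have hQM : (Q * M ^ 2) ^ (2 * e) ≤ B ^ (2 * e) * x ^ (1 / 8 : ℝ) := by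
    have h1 : Q * M ^ 2 ≤ B * x ^ (n + 2) := by
      rw [hQe, pow_add]
      calc B * x ^ n * M ^ 2 ≤ B * x ^ n * x ^ 2 := by gcongr
        _ = _ := by ring
    calc (Q * M ^ 2) ^ (2 * e) ≤ (B * x ^ (n + 2)) ^ (2 * e) := by gcongr
      _ = B ^ (2 * e) * x ^ (1 / 8 : ℝ) := by
          rw [Real.mul_rpow (by positivity) (by positivity), ← Real.rpow_natCast x,
            ← Real.rpow_mul hx0.le, ← hen]
          push_cast
          rfl
  -- the ideals of the real subfield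
  have hch : ∀ p ∈ X, ∃ z : Ideal (𝓞 (Kp K)) × Ideal (𝓞 (Kp K)),
      Real2 p z.1 z.2 ∧ Cg q z.1 z.2 := by
    intro p hp
    obtain ⟨-, -, y₁, y₂, h⟩ := hX p hp
    exact ⟨(y₁, y₂), h⟩
  choose! g hg using hch
  have hinj : Set.InjOn g X := by
    intro p hp p' hp' h
    have h1 := (hg p hp).1
    have h2 := (hg p' hp').1
    rw [← h] at h2
    exact Prod.ext (h1.2.2.1.trans h2.2.2.1.symm) (h1.2.2.2.1.trans h2.2.2.2.1.symm)
  have hgb : ∀ p ∈ X, (g p).1 ≠ ⊥ ∧ (g p).2 ≠ ⊥ := fun p hp =>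
    ⟨(hg p hp).1.1, (hg p hp).1.2.1⟩
  set N1 : Ideal (𝓞 K) × Ideal (𝓞 K) → ℕ := fun p => Ideal.absNorm (g p).1 with hN1
  set N2 : Ideal (𝓞 K) × Ideal (𝓞 K) → ℕ := fun p => Ideal.absNorm (g p).2 with hN2
  have hN : ∀ p ∈ X, 1 ≤ N1 p ∧ 1 ≤ N2 p := fun p hp =>
    ⟨Nat.one_le_iff_ne_zero.mpr (fun h => (hgb p hp).1 (Ideal.absNorm_eq_zero_iff.mp h)),
      Nat.one_le_iff_ne_zero.mpr (fun h => (hgb p hp).2 (Ideal.absNorm_eq_zero_iff.mp h))⟩
  have hnm : ∀ p ∈ X, nm p.1 * nm p.2 = ((N1 p : ℝ) * N2 p) ^ 2 := by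
    intro p hp
    obtain ⟨-, -, -, -, a5, a6⟩ := (hg p hp).1
    rw [a5, a6, hN1, hN2]
    unfold nm
    ring
  have hXp : ∀ p ∈ X, p.1 ≠ ⊥ ∧ p.2 ≠ ⊥ ∧ p.1 ⊔ p.2 = ⊤ := fun p hp =>
    ⟨(hX p hp).1.1, (hX p hp).1.2.1, (hX p hp).1.2.2.1⟩
  set w : Ideal (𝓞 K) × Ideal (𝓞 K) → ℝ := fun p => ‖Dd (qi K q) Q M p.1 p.2‖ with hw
  have hpf : ∀ p ∈ X, (2 : ℝ) ^ ((pf p.1).card + (pf p.2).card) ≤
      C_V ^ 2 * ((N1 p : ℝ) * N2 p) ^ (2 * e) := by
    intro p hp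
    obtain ⟨a1, a2, -⟩ := hXp p hp
    obtain ⟨b1, b2⟩ := hN p hp
    have b1' : (1 : ℝ) ≤ N1 p := by exact_mod_cast b1
    have b2' : (1 : ℝ) ≤ N2 p := by exact_mod_cast b2
    rw [pow_add]
    have c1 := hC_V p.1 a1
    have c2 := hC_V p.2 a2
    have c3 : nm p.1 ^ e * nm p.2 ^ e = ((N1 p : ℝ) * N2 p) ^ (2 * e) := by
      rw [← Real.mul_rpow (nm_pos a1).le (nm_pos a2).le, hnm p hp, ← Real.rpow_natCast,
        ← Real.rpow_mul (by positivity)]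
      push_cast
      rfl
    calc (2 : ℝ) ^ (pf p.1).card * 2 ^ (pf p.2).card
        ≤ (C_V * nm p.1 ^ e) * (C_V * nm p.2 ^ e) :=
          mul_le_mul c1 c2 (by positivity) (le_trans (by positivity) c1)
      _ = C_V ^ 2 * (nm p.1 ^ e * nm p.2 ^ e) := by ring
      _ = _ := by rw [c3]
  have hhalf : ∀ p ∈ X, (nm p.1 * nm p.2) ^ (-(1 / 2) : ℝ) = ((N1 p : ℝ) * N2 p) ^ (-1 : ℝ) := by
    intro p hp
    rw [hnm p hp, ← Real.rpow_natCast, ← Real.rpow_mul (by positivity)]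
    congr 1
    push_cast
    ring
  -- the trivial bound
  have hDTp : ∀ p ∈ X, w p ≤ |C_T| * C_V ^ 2 * L ^ 4 * (((N1 p : ℝ) * N2 p) ^ (-1 : ℝ) *
      ((N1 p : ℝ) * N2 p) ^ (2 * e)) * min 1 (Q * M ^ 2 / ((N1 p : ℝ) * N2 p) ^ 2) := by
    intro p hp
    obtain ⟨a1, a2, a3⟩ := hXp p hp
    have h1 := hC_T (qi K q) Q M p.1 p.2 hQ1 hM1 a1 a2 a3
    rw [hhalf p hp, hnm p hp, pow_one] at h1
    have h2 := hpf p hp
    have h3 : 0 ≤ min 1 (Q * M ^ 2 / ((N1 p : ℝ) * N2 p) ^ 2) := le_min zero_le_one (by positivity)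
    have c1 : C_T ≤ |C_T| := le_abs_self _
    calc w p ≤ C_T * ((N1 p : ℝ) * N2 p) ^ (-1 : ℝ) * 2 ^ ((pf p.1).card + (pf p.2).card) *
          L ^ 4 * min 1 (Q * M ^ 2 / ((N1 p : ℝ) * N2 p) ^ 2) := h1
      _ ≤ |C_T| * ((N1 p : ℝ) * N2 p) ^ (-1 : ℝ) * (C_V ^ 2 * ((N1 p : ℝ) * N2 p) ^ (2 * e)) *
          L ^ 4 * min 1 (Q * M ^ 2 / ((N1 p : ℝ) * N2 p) ^ 2) := by gcongr
      _ = _ := by ring
  set X3 := X.filter (fun p => ¬ N1 p = N2 p) with hX3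
  set X0 := X.filter (fun p => N1 p = N2 p) with hX0
  set X1 := X0.filter (fun p => ((N1 p : ℝ) * N2 p) ^ 2 ≤ x ^ δ) with hX1
  set X2 := X0.filter (fun p => ¬ ((N1 p : ℝ) * N2 p) ^ 2 ≤ x ^ δ) with hX2
  have hsplit : ∑ p ∈ X, w p = ∑ p ∈ X1, w p + ∑ p ∈ X2, w p + ∑ p ∈ X3, w p := by
    rw [hX1, hX2, Finset.sum_filter_add_sum_filter_not, hX0, hX3,
      Finset.sum_filter_add_sum_filter_not]
  -- the first part
  have h1 : ∑ p ∈ X1, w p ≤ Ka / Real.log x := by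
    have hsub : ∀ p ∈ X1, p ∈ X ∧ N1 p = N2 p ∧ ((N1 p : ℝ) * N2 p) ^ 2 ≤ x ^ δ := by
      intro p hp
      obtain ⟨b1, b2⟩ := Finset.mem_filter.mp hp
      obtain ⟨b3, b4⟩ := Finset.mem_filter.mp b1
      exact ⟨b3, b4, b2⟩
    set T : ℕ × ℕ → ℝ := fun s => |C_E| / Real.log x * C_V ^ 2 *
      (((s.1 : ℝ) * s.2) ^ (-1 : ℝ) * ((s.1 : ℝ) * s.2) ^ (2 * e)) *
      (1 + Real.log (((s.1 : ℝ) * s.2) ^ 2)) ^ 2 with hT
    have hT0 : ∀ s, 0 ≤ T s := fun s => by positivity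
    have hle : ∀ p ∈ X1, w p ≤ T (Ideal.absNorm (g p).1, Ideal.absNorm (g p).2) := by
      intro p hp
      obtain ⟨b1, b2, b3⟩ := hsub p hp
      obtain ⟨a1, a2, a3⟩ := hXp p b1
      have hne : p ≠ (⊤, ⊤) := (hX p b1).2.1
      obtain ⟨-, -, -, -, a5, a6⟩ := (hg p b1).1
      have hnn : nm (g p).1 = nm (g p).2 := by
        unfold nm
        exact_mod_cast b2
      have hI : p.1 ≠ ⊤ := by
        intro h
        have e1 : nm p.2 = 1 := by rw [a6, ← hnn, ← a5, h, nm_top]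
        exact hne (Prod.ext h (nm_eq_one e1))
      have hJ : p.2 ≠ ⊤ := by
        intro h
        have e1 : nm p.1 = 1 := by rw [a5, hnn, ← a6, h, nm_top]
        exact hne (Prod.ext (nm_eq_one e1) h)
      have h2 := hDE2 p.1 p.2 a1 a2 hI hJ a3 (by rw [hnm p b1]; exact b3)
      rw [hhalf p b1, hnm p b1] at h2
      have h3 := hpf p b1
      have c1 : C_E ≤ |C_E| := le_abs_self _
      calc w p ≤ C_E / Real.log x * ((N1 p : ℝ) * N2 p) ^ (-1 : ℝ) *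
            2 ^ ((pf p.1).card + (pf p.2).card) *
            (1 + Real.log (((N1 p : ℝ) * N2 p) ^ 2)) ^ 2 := h2
        _ ≤ |C_E| / Real.log x * ((N1 p : ℝ) * N2 p) ^ (-1 : ℝ) *
            (C_V ^ 2 * ((N1 p : ℝ) * N2 p) ^ (2 * e)) *
            (1 + Real.log (((N1 p : ℝ) * N2 p) ^ 2)) ^ 2 := by gcongr
        _ = T (N1 p, N2 p) := by rw [hT]; ring
    refine (Finset.sum_le_sum hle).trans ((fiber_sum C_I e (by linarith) hC_I X1 g
      (hinj.mono fun p hp => (hsub p hp).1) (fun p hp => hgb p (hsub p hp).1) T hT0).trans ?_)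
    have hS : ∀ s ∈ X1.image (fun p => (Ideal.absNorm (g p).1, Ideal.absNorm (g p).2)),
        s.1 = s.2 ∧ 1 ≤ s.1 ∧ 1 ≤ s.2 := by
      intro s hs
      obtain ⟨p, hp, rfl⟩ := Finset.mem_image.mp hs
      obtain ⟨b1, b2, b3⟩ := hsub p hp
      exact ⟨b2, hN p b1⟩
    calc ∑ s ∈ X1.image (fun p => (Ideal.absNorm (g p).1, Ideal.absNorm (g p).2)),
          C_I ^ 2 * ((s.1 : ℝ) * s.2) ^ e * T s
        ≤ ∑ s ∈ X1.image (fun p => (Ideal.absNorm (g p).1, Ideal.absNorm (g p).2)),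
          (C_I ^ 2 * (|C_E| * C_V ^ 2) * 529 / Real.log x) *
            ((s.1 : ℝ) * s.2) ^ (-(3 / 4) : ℝ) := by
          refine Finset.sum_le_sum fun s hs => ?_
          obtain ⟨-, c1, c2⟩ := hS s hs
          have c1' : (1 : ℝ) ≤ s.1 := by exact_mod_cast c1
          have c2' : (1 : ℝ) ≤ s.2 := by exact_mod_cast c2
          set W : ℝ := (s.1 : ℝ) * s.2 with hW
          have hW1 : 1 ≤ W := one_le_mul_of_one_le_of_one_le c1' c2'
          have hW0 : 0 < W := by linarith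
          have k1 := log_sq_le hW1
          have k2 : W ^ e * (W ^ (-1 : ℝ) * W ^ (2 * e)) * W ^ (3 / 16 : ℝ) ≤
              W ^ (-(3 / 4) : ℝ) := by
            rw [← Real.rpow_add hW0, ← Real.rpow_add hW0, ← Real.rpow_add hW0]
            exact Real.rpow_le_rpow_of_exponent_le hW1 (by linarith)
          calc C_I ^ 2 * W ^ e * T s = (C_I ^ 2 * (|C_E| * C_V ^ 2) / Real.log x) *
                (W ^ e * (W ^ (-1 : ℝ) * W ^ (2 * e)) * (1 + Real.log (W ^ 2)) ^ 2) := by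
                rw [hT]; ring
            _ ≤ (C_I ^ 2 * (|C_E| * C_V ^ 2) / Real.log x) *
                (W ^ e * (W ^ (-1 : ℝ) * W ^ (2 * e)) * (529 * W ^ (3 / 16 : ℝ))) := by gcongr
            _ = (C_I ^ 2 * (|C_E| * C_V ^ 2) * 529 / Real.log x) *
                (W ^ e * (W ^ (-1 : ℝ) * W ^ (2 * e)) * W ^ (3 / 16 : ℝ)) := by ring
            _ ≤ _ := by gcongr
      _ = (C_I ^ 2 * (|C_E| * C_V ^ 2) * 529 / Real.log x) *
          ∑ s ∈ X1.image (fun p => (Ideal.absNorm (g p).1, Ideal.absNorm (g p).2)),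
            ((s.1 : ℝ) * s.2) ^ (-(3 / 4) : ℝ) := by rw [Finset.mul_sum]
      _ ≤ (C_I ^ 2 * (|C_E| * C_V ^ 2) * 529 / Real.log x) * Z_d := by
          have := hdiag _ fun s hs => (hS s hs).1
          gcongr
      _ = Ka / Real.log x := by rw [hKa]; ring
  -- the second part
  have h2 : ∑ p ∈ X2, w p ≤ Kb * x ^ (-(δ / 32)) := by
    have hsub : ∀ p ∈ X2, p ∈ X ∧ N1 p = N2 p ∧ x ^ δ < ((N1 p : ℝ) * N2 p) ^ 2 := by
      intro p hp
      obtain ⟨b1, b2⟩ := Finset.mem_filter.mp hp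
      obtain ⟨b3, b4⟩ := Finset.mem_filter.mp b1
      exact ⟨b3, b4, not_le.mp b2⟩
    set T : ℕ × ℕ → ℝ := fun s => |C_T| * C_V ^ 2 * L ^ 4 *
      (((s.1 : ℝ) * s.2) ^ (-1 : ℝ) * ((s.1 : ℝ) * s.2) ^ (2 * e)) with hT
    have hT0 : ∀ s, 0 ≤ T s := fun s => by positivity
    have hle : ∀ p ∈ X2, w p ≤ T (Ideal.absNorm (g p).1, Ideal.absNorm (g p).2) := by
      intro p hp
      obtain ⟨b1, b2, b3⟩ := hsub p hp
      refine (hDTp p b1).trans ?_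
      calc |C_T| * C_V ^ 2 * L ^ 4 * (((N1 p : ℝ) * N2 p) ^ (-1 : ℝ) *
            ((N1 p : ℝ) * N2 p) ^ (2 * e)) * min 1 (Q * M ^ 2 / ((N1 p : ℝ) * N2 p) ^ 2)
          ≤ |C_T| * C_V ^ 2 * L ^ 4 * (((N1 p : ℝ) * N2 p) ^ (-1 : ℝ) *
            ((N1 p : ℝ) * N2 p) ^ (2 * e)) * 1 := by
            gcongr
            exact min_le_left _ _
        _ = T (N1 p, N2 p) := by rw [hT]; ring
    refine (Finset.sum_le_sum hle).trans ((fiber_sum C_I e (by linarith) hC_I X2 g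
      (hinj.mono fun p hp => (hsub p hp).1) (fun p hp => hgb p (hsub p hp).1) T hT0).trans ?_)
    have hS : ∀ s ∈ X2.image (fun p => (Ideal.absNorm (g p).1, Ideal.absNorm (g p).2)),
        s.1 = s.2 ∧ 1 ≤ s.1 ∧ 1 ≤ s.2 ∧ x ^ δ < ((s.1 : ℝ) * s.2) ^ 2 := by
      intro s hs
      obtain ⟨p, hp, rfl⟩ := Finset.mem_image.mp hs
      obtain ⟨b1, b2, b3⟩ := hsub p hp
      exact ⟨b2, (hN p b1).1, (hN p b1).2, b3⟩
    calc ∑ s ∈ X2.image (fun p => (Ideal.absNorm (g p).1, Ideal.absNorm (g p).2)),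
          C_I ^ 2 * ((s.1 : ℝ) * s.2) ^ e * T s
        ≤ ∑ s ∈ X2.image (fun p => (Ideal.absNorm (g p).1, Ideal.absNorm (g p).2)),
          (C_I ^ 2 * (|C_T| * C_V ^ 2 * c_M ^ 4) * x ^ (-(δ / 32))) *
            ((s.1 : ℝ) * s.2) ^ (-(3 / 4) : ℝ) := by
          refine Finset.sum_le_sum fun s hs => ?_
          obtain ⟨-, c1, c2, c3⟩ := hS s hs
          have c1' : (1 : ℝ) ≤ s.1 := by exact_mod_cast c1
          have c2' : (1 : ℝ) ≤ s.2 := by exact_mod_cast c2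
          set W : ℝ := (s.1 : ℝ) * s.2 with hW
          have hW1 : 1 ≤ W := one_le_mul_of_one_le_of_one_le c1' c2'
          have hW0 : 0 < W := by linarith
          have k1 : W ^ e * (W ^ (-1 : ℝ) * W ^ (2 * e)) ≤
              W ^ (-(3 / 4) : ℝ) * W ^ (-(3 / 16) : ℝ) := by
            rw [← Real.rpow_add hW0, ← Real.rpow_add hW0, ← Real.rpow_add hW0]
            exact Real.rpow_le_rpow_of_exponent_le hW1 (by linarith)
          have k2 : W ^ (-(3 / 16) : ℝ) ≤ x ^ (-(3 * δ / 32)) := by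
            have k3 : W ^ (-(3 / 16) : ℝ) = (W ^ 2) ^ (-(3 / 32) : ℝ) := by
              rw [← Real.rpow_natCast, ← Real.rpow_mul hW0.le]
              norm_num
            have k4 : x ^ (-(3 * δ / 32)) = (x ^ δ) ^ (-(3 / 32) : ℝ) := by
              rw [← Real.rpow_mul hx0.le]
              congr 1
              ring
            rw [k3, k4]
            exact Real.rpow_le_rpow_of_nonpos (by positivity) c3.le (by norm_num)
          have k5 : x ^ (δ / 16) * x ^ (-(3 * δ / 32)) = x ^ (-(δ / 32)) := by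
            rw [← Real.rpow_add hx0]
            congr 1
            ring
          calc C_I ^ 2 * W ^ e * T s = (C_I ^ 2 * (|C_T| * C_V ^ 2)) * L ^ 4 *
                (W ^ e * (W ^ (-1 : ℝ) * W ^ (2 * e))) := by
                rw [hT]; ring
            _ ≤ (C_I ^ 2 * (|C_T| * C_V ^ 2)) * (c_M ^ 4 * x ^ (δ / 16)) *
                (W ^ (-(3 / 4) : ℝ) * x ^ (-(3 * δ / 32))) := by
                have k6 := k1.trans (mul_le_mul_of_nonneg_left k2 (by positivity))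
                gcongr
            _ = (C_I ^ 2 * (|C_T| * C_V ^ 2 * c_M ^ 4)) * (x ^ (δ / 16) * x ^ (-(3 * δ / 32))) *
                W ^ (-(3 / 4) : ℝ) := by ring
            _ = _ := by rw [k5]
      _ = (C_I ^ 2 * (|C_T| * C_V ^ 2 * c_M ^ 4) * x ^ (-(δ / 32))) *
          ∑ s ∈ X2.image (fun p => (Ideal.absNorm (g p).1, Ideal.absNorm (g p).2)),
            ((s.1 : ℝ) * s.2) ^ (-(3 / 4) : ℝ) := by rw [Finset.mul_sum]
      _ ≤ (C_I ^ 2 * (|C_T| * C_V ^ 2 * c_M ^ 4) * x ^ (-(δ / 32))) * Z_d := by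
          have := hdiag _ fun s hs => (hS s hs).1
          gcongr
      _ = Kb * x ^ (-(δ / 32)) := by rw [hKb]; ring
  -- the third part
  have h3 : ∑ p ∈ X3, w p ≤ Kc * x ^ (-(5 / 8 : ℝ)) := by
    have hsub : ∀ p ∈ X3, p ∈ X ∧ N1 p ≠ N2 p := by
      intro p hp
      obtain ⟨b1, b2⟩ := Finset.mem_filter.mp hp
      exact ⟨b1, b2⟩
    set T : ℕ × ℕ → ℝ := fun s => |C_T| * C_V ^ 2 * L ^ 4 * (Q * M ^ 2) ^ (2 * e) *
      (((s.1 : ℝ) * s.2) ^ (-1 : ℝ) * ((s.1 : ℝ) * s.2) ^ (2 * e) *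
        ((s.1 : ℝ) * s.2) ^ (-(4 * e))) with hT
    have hT0 : ∀ s, 0 ≤ T s := fun s => by positivity
    have hle : ∀ p ∈ X3, w p ≤ T (Ideal.absNorm (g p).1, Ideal.absNorm (g p).2) := by
      intro p hp
      obtain ⟨b1, b2⟩ := hsub p hp
      obtain ⟨c1, c2⟩ := hN p b1
      have c1' : (1 : ℝ) ≤ N1 p := by exact_mod_cast c1
      have c2' : (1 : ℝ) ≤ N2 p := by exact_mod_cast c2
      refine (hDTp p b1).trans ?_
      have hmin : min 1 (Q * M ^ 2 / ((N1 p : ℝ) * N2 p) ^ 2) ≤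
          (Q * M ^ 2) ^ (2 * e) * ((N1 p : ℝ) * N2 p) ^ (-(4 * e)) := by
        refine (min_one_le_rpow (by positivity) (by positivity : 0 ≤ 2 * e)
          (by linarith)).trans (le_of_eq ?_)
        rw [Real.div_rpow (by positivity) (by positivity), div_eq_mul_inv,
          ← Real.rpow_natCast ((N1 p : ℝ) * N2 p), ← Real.rpow_mul (by positivity),
          ← Real.rpow_neg (by positivity)]
        congr 2
        push_cast
        ring
      calc |C_T| * C_V ^ 2 * L ^ 4 * (((N1 p : ℝ) * N2 p) ^ (-1 : ℝ) *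
            ((N1 p : ℝ) * N2 p) ^ (2 * e)) * min 1 (Q * M ^ 2 / ((N1 p : ℝ) * N2 p) ^ 2)
          ≤ |C_T| * C_V ^ 2 * L ^ 4 * (((N1 p : ℝ) * N2 p) ^ (-1 : ℝ) *
            ((N1 p : ℝ) * N2 p) ^ (2 * e)) *
            ((Q * M ^ 2) ^ (2 * e) * ((N1 p : ℝ) * N2 p) ^ (-(4 * e))) := by
            gcongr
        _ = T (N1 p, N2 p) := by rw [hT]; ring
    refine (Finset.sum_le_sum hle).trans ((fiber_sum C_I e (by linarith) hC_I X3 g
      (hinj.mono fun p hp => (hsub p hp).1) (fun p hp => hgb p (hsub p hp).1) T hT0).trans ?_)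
    have hS : ∀ s ∈ X3.image (fun p => (Ideal.absNorm (g p).1, Ideal.absNorm (g p).2)),
        1 ≤ s.1 ∧ 1 ≤ s.2 ∧ s.1 ≠ s.2 ∧
          ((q : ℤ) ∣ (s.1 : ℤ) - s.2 ∨ (q : ℤ) ∣ (s.1 : ℤ) + s.2) := by
      intro s hs
      obtain ⟨p, hp, rfl⟩ := Finset.mem_image.mp hs
      obtain ⟨b1, b2⟩ := hsub p hp
      exact ⟨(hN p b1).1, (hN p b1).2, b2, (hg p b1).2⟩
    calc ∑ s ∈ X3.image (fun p => (Ideal.absNorm (g p).1, Ideal.absNorm (g p).2)),
          C_I ^ 2 * ((s.1 : ℝ) * s.2) ^ e * T s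
        ≤ ∑ s ∈ X3.image (fun p => (Ideal.absNorm (g p).1, Ideal.absNorm (g p).2)),
          (C_I ^ 2 * (|C_T| * C_V ^ 2 * c_L ^ 4 * B ^ (2 * e)) * x ^ (3 / 8 : ℝ)) *
            ((s.1 : ℝ) * s.2) ^ (-(1 + e)) := by
          refine Finset.sum_le_sum fun s hs => ?_
          obtain ⟨c1, c2, -⟩ := hS s hs
          have c1' : (1 : ℝ) ≤ s.1 := by exact_mod_cast c1
          have c2' : (1 : ℝ) ≤ s.2 := by exact_mod_cast c2
          set W : ℝ := (s.1 : ℝ) * s.2 with hW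
          have hW1 : 1 ≤ W := one_le_mul_of_one_le_of_one_le c1' c2'
          have hW0 : 0 < W := by linarith
          have k1 : W ^ e * (W ^ (-1 : ℝ) * W ^ (2 * e) * W ^ (-(4 * e))) = W ^ (-(1 + e)) := by
            rw [← Real.rpow_add hW0, ← Real.rpow_add hW0, ← Real.rpow_add hW0]
            congr 1
            ring
          have k5 : x ^ (1 / 4 : ℝ) * x ^ (1 / 8 : ℝ) = x ^ (3 / 8 : ℝ) := by
            rw [← Real.rpow_add hx0]
            norm_num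
          calc C_I ^ 2 * W ^ e * T s = (C_I ^ 2 * (|C_T| * C_V ^ 2)) * L ^ 4 *
                (Q * M ^ 2) ^ (2 * e) *
                (W ^ e * (W ^ (-1 : ℝ) * W ^ (2 * e) * W ^ (-(4 * e)))) := by
                rw [hT]; ring
            _ ≤ (C_I ^ 2 * (|C_T| * C_V ^ 2)) * (c_L ^ 4 * x ^ (1 / 4 : ℝ)) *
                (B ^ (2 * e) * x ^ (1 / 8 : ℝ)) * W ^ (-(1 + e)) := by
                rw [k1]
                gcongr
            _ = (C_I ^ 2 * (|C_T| * C_V ^ 2 * c_L ^ 4 * B ^ (2 * e))) *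
                (x ^ (1 / 4 : ℝ) * x ^ (1 / 8 : ℝ)) * W ^ (-(1 + e)) := by ring
            _ = _ := by rw [k5]
      _ = (C_I ^ 2 * (|C_T| * C_V ^ 2 * c_L ^ 4 * B ^ (2 * e)) * x ^ (3 / 8 : ℝ)) *
          ∑ s ∈ X3.image (fun p => (Ideal.absNorm (g p).1, Ideal.absNorm (g p).2)),
            ((s.1 : ℝ) * s.2) ^ (-(1 + e)) := by rw [Finset.mul_sum]
      _ ≤ (C_I ^ 2 * (|C_T| * C_V ^ 2 * c_L ^ 4 * B ^ (2 * e)) * x ^ (3 / 8 : ℝ)) *
          (Z_c * x ^ (-(1 : ℝ))) := by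
          have := hcong q hq.one_le _ hS
          gcongr
      _ = Kc * (x ^ (3 / 8 : ℝ) * x ^ (-(1 : ℝ))) := by rw [hKc]; ring
      _ = Kc * x ^ (-(5 / 8 : ℝ)) := by
          rw [← Real.rpow_add hx0]
          norm_num
  rw [hsplit]
  exact add_le_add (add_le_add h1 h2) h3

end Pool.Agent.H46.CV
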