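import Pool.Agent.H37.CV.Targets

/-!
Module PS of the board cmv_modules: sums over the relations in a range.
-/

set_option autoImplicit false

open NumberField NumberField.InfinitePlace Finset

namespace Pool.Agent.H46.CV

open Pool.Agent.H37.CV Pool.Agent.H28.RC Pool.Agent.H25.HK

section

variable {K : Type} [Field K] [NumberField K]

theorem absNorm_pos {I : Ideal (𝓞 K)} (hI : I ≠ ⊥) : 1 ≤ Ideal.absNorm I :=
  Nat.one_le_iff_ne_zero.mpr (fun h => hI (Ideal.absNorm_eq_zero_iff.mp h))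

theorem one_le_nm {I : Ideal (𝓞 K)} (hI : I ≠ ⊥) : 1 ≤ nm I := by
  unfold nm
  exact_mod_cast absNorm_pos hI

theorem pow_log_le {I : Ideal (𝓞 K)} (hI : I ≠ ⊥) :
    (2 : ℝ) ^ Nat.log 2 (Ideal.absNorm I) ≤ nm I := by
  unfold nm
  exact_mod_cast Nat.pow_log_le_self 2 (by have := absNorm_pos hI; omega)

theorem lt_pow_log {I : Ideal (𝓞 K)} :
    nm I ≤ (2 : ℝ) ^ (Nat.log 2 (Ideal.absNorm I) + 1) := by
  unfold nm
  exact_mod_cast (Nat.lt_pow_succ_log_self (by norm_num) _).le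

end

theorem log_count {δ : ℝ} (hδ : 0 < δ) (R : ℝ) (hR : 1 ≤ R) (k : ℕ) (hk : (2 : ℝ) ^ k ≤ R) :
    ((k : ℝ) + 1) ≤ (1 + 2 / δ) * R ^ δ := by
  have h1 : (k : ℝ) * Real.log 2 ≤ Real.log R := by
    rw [← Real.log_pow]
    exact Real.log_le_log (by positivity) hk
  have h2 : (1 / 2 : ℝ) ≤ Real.log 2 := by
    have := Real.log_two_gt_d9
    linarith
  have h3 : Real.log R ≤ R ^ δ / δ := Real.log_le_rpow_div (by linarith) hδ
  have h4 : (1 : ℝ) ≤ R ^ δ := Real.one_le_rpow hR hδ.le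
  have h5 : (k : ℝ) ≤ 2 * (R ^ δ / δ) := by nlinarith
  calc (k : ℝ) + 1 ≤ 2 * (R ^ δ / δ) + R ^ δ := by linarith
    _ = (1 + 2 / δ) * R ^ δ := by ring

theorem pf_PS (hLR : H37.CV.T_LR) (hDV : H37.CV.T_DV) : H37.CV.T_PS := by
  intro K _ _ ε hε
  classical
  obtain ⟨C1, hC1⟩ := hLR K
  obtain ⟨hDV1, -⟩ := hDV K
  obtain ⟨C2, hC2, -, hpf⟩ := hDV1 (ε / 2) (by positivity)
  set Ck : ℝ := 1 + 2 / (ε / 4) with hCk
  have hCk0 : 0 ≤ Ck := by positivity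
  set C1' : ℝ := |C1| with hC1'
  refine ⟨4 * C1' * C2 ^ 2 * Ck ^ 2, ?_⟩
  intro m d L R X hm hmd hL hLR' hX
  have hR1 : 1 ≤ R := hL.trans hLR'
  have hR0 : 0 < R := by linarith
  have hd : d ≠ ⊥ := fun h => hm (le_bot_iff.mp (h ▸ hmd))
  have hnd : 1 ≤ nm d := one_le_nm hd
  set k : ℕ := Nat.log 2 ⌊R⌋₊ with hk
  have hfl : ⌊R⌋₊ ≠ 0 := by
    have : 1 ≤ ⌊R⌋₊ := Nat.le_floor (by simpa using hR1)
    omega
  have hkR : (2 : ℝ) ^ k ≤ R := by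
    have h1 : ((2 ^ k : ℕ) : ℝ) ≤ (⌊R⌋₊ : ℝ) := by exact_mod_cast Nat.pow_log_le_self 2 hfl
    push_cast at h1
    exact h1.trans (Nat.floor_le hR0.le)
  set f : Ideal (𝓞 K) × Ideal (𝓞 K) → ℕ × ℕ :=
    fun p => (Nat.log 2 (Ideal.absNorm p.1), Nat.log 2 (Ideal.absNorm p.2)) with hf
  have hmaps : ∀ p ∈ X, f p ∈ range (k + 1) ×ˢ range (k + 1) := by
    intro p hp
    obtain ⟨⟨h1, h2, -⟩, -, h4⟩ := hX p hp
    have n1 := one_le_nm h1
    have n2 := one_le_nm h2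
    have a1 : nm p.1 ≤ R := by nlinarith
    have a2 : nm p.2 ≤ R := by nlinarith
    rw [mem_product, mem_range, mem_range, Nat.lt_succ_iff, Nat.lt_succ_iff]
    have b1 : Nat.log 2 (Ideal.absNorm p.1) ≤ k := Nat.log_mono_right (Nat.le_floor a1)
    have b2 : Nat.log 2 (Ideal.absNorm p.2) ≤ k := Nat.log_mono_right (Nat.le_floor a2)
    exact ⟨b1, b2⟩
  set W : ℝ := L ^ (-(1 / 2) : ℝ) + R ^ (1 / 2 : ℝ) / nm d with hW
  have hW0 : 0 ≤ W := by positivity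
  set w : Ideal (𝓞 K) × Ideal (𝓞 K) → ℝ := fun p =>
    (2 : ℝ) ^ ((pf p.1).card + (pf p.2).card) * (nm p.1 * nm p.2) ^ (-(1 / 2) : ℝ) with hw
  have hbox : ∀ ij ∈ range (k + 1) ×ˢ range (k + 1), ∑ p ∈ X with f p = ij, w p ≤
      4 * C1' * C2 ^ 2 * R ^ (ε / 2) * uc d * W := by
    intro ij _
    set Y := X.filter (fun p => f p = ij) with hY
    rcases Y.eq_empty_or_nonempty with hE | ⟨p0, hp0⟩
    · rw [hE, Finset.sum_empty]
      positivity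
    set s : ℕ := ij.1 + ij.2 with hs
    have hprod : ∀ p ∈ Y, (2 : ℝ) ^ s ≤ nm p.1 * nm p.2 ∧ nm p.1 * nm p.2 ≤ 2 ^ (s + 2) ∧
        nm p.1 ≤ 2 ^ (ij.1 + 1) ∧ nm p.2 ≤ 2 ^ (ij.2 + 1) := by
      intro p hp
      obtain ⟨hpX, hpf'⟩ := Finset.mem_filter.mp hp
      obtain ⟨⟨h1, h2, -⟩, -, h4⟩ := hX p hpX
      have b1 := pow_log_le h1
      have b2 := pow_log_le h2
      have b3 := lt_pow_log (I := p.1)
      have b4 := lt_pow_log (I := p.2)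
      have e0 : (Nat.log 2 (Ideal.absNorm p.1), Nat.log 2 (Ideal.absNorm p.2)) = ij := hpf'
      have e1 : Nat.log 2 (Ideal.absNorm p.1) = ij.1 := by rw [← e0]
      have e2 : Nat.log 2 (Ideal.absNorm p.2) = ij.2 := by rw [← e0]
      rw [e1] at b1 b3
      rw [e2] at b2 b4
      have n1 := one_le_nm h1
      have n2 := one_le_nm h2
      refine ⟨?_, ?_, b3, b4⟩
      · rw [hs, pow_add]
        exact mul_le_mul b1 b2 (by positivity) (by linarith)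
      · have : (2 : ℝ) ^ (s + 2) = 2 ^ (ij.1 + 1) * 2 ^ (ij.2 + 1) := by
          rw [hs, ← pow_add]; congr 1; omega
        rw [this]
        exact mul_le_mul b3 b4 (by linarith) (by positivity)
    have hcard : (Y.card : ℝ) ≤ C1' * uc d * (1 + 2 ^ (s + 2) / nm d) := by
      have h1 := hC1 m d (2 ^ (ij.1 + 1)) (2 ^ (ij.2 + 1)) Y hm hmd (one_le_pow₀ (by norm_num))
        (one_le_pow₀ (by norm_num)) (fun p hp =>
          ⟨(hX p (Finset.mem_filter.mp hp).1).1, (hprod p hp).2.2.1, (hprod p hp).2.2.2⟩)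
      have e1 : (2 : ℝ) ^ (ij.1 + 1) * 2 ^ (ij.2 + 1) = 2 ^ (s + 2) := by
        rw [hs, ← pow_add]; congr 1; omega
      rw [e1] at h1
      refine h1.trans ?_
      have h2 : C1 ≤ C1' := le_abs_self C1
      gcongr
    have hw1 : ∀ p ∈ Y, w p ≤ C2 ^ 2 * R ^ (ε / 2) * ((2 : ℝ) ^ s) ^ (-(1 / 2) : ℝ) := by
      intro p hp
      have hpX := (Finset.mem_filter.mp hp).1
      obtain ⟨⟨h1, h2, -⟩, -, h4⟩ := hX p hpX
      have n1 := one_le_nm h1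
      have n2 := one_le_nm h2
      have q1 := hpf p.1 h1
      have q2 := hpf p.2 h2
      have q3 : (2 : ℝ) ^ ((pf p.1).card + (pf p.2).card) ≤ C2 ^ 2 * R ^ (ε / 2) := by
        rw [pow_add]
        calc (2 : ℝ) ^ (pf p.1).card * 2 ^ (pf p.2).card
            ≤ (C2 * nm p.1 ^ (ε / 2)) * (C2 * nm p.2 ^ (ε / 2)) := by gcongr
          _ = C2 ^ 2 * (nm p.1 * nm p.2) ^ (ε / 2) := by
              rw [Real.mul_rpow (by linarith) (by linarith)]; ring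
          _ ≤ C2 ^ 2 * R ^ (ε / 2) := by gcongr
      have q4 : (nm p.1 * nm p.2) ^ (-(1 / 2) : ℝ) ≤ ((2 : ℝ) ^ s) ^ (-(1 / 2) : ℝ) :=
        Real.rpow_le_rpow_of_nonpos (by positivity) (hprod p hp).1 (by norm_num)
      rw [hw]
      exact mul_le_mul q3 q4 (by positivity) (by positivity)
    obtain ⟨hp0X, -⟩ := Finset.mem_filter.mp hp0
    obtain ⟨g1, g2, -⟩ := hprod p0 hp0
    obtain ⟨-, hL0, hR0'⟩ := hX p0 hp0X
    have hs1 : ((2 : ℝ) ^ s) ^ (-(1 / 2) : ℝ) ≤ 2 * L ^ (-(1 / 2) : ℝ) := by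
      have h1 : L / 4 ≤ 2 ^ s := by
        have : (2 : ℝ) ^ (s + 2) = 4 * 2 ^ s := by rw [pow_add]; ring
        linarith
      calc ((2 : ℝ) ^ s) ^ (-(1 / 2) : ℝ) ≤ (L / 4) ^ (-(1 / 2) : ℝ) :=
            Real.rpow_le_rpow_of_nonpos (by positivity) h1 (by norm_num)
        _ = L ^ (-(1 / 2) : ℝ) * (1 / 4 : ℝ) ^ (-(1 / 2) : ℝ) := by
            rw [div_eq_mul_one_div, Real.mul_rpow (by linarith) (by norm_num)]
        _ = 2 * L ^ (-(1 / 2) : ℝ) := by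
            have : (1 / 4 : ℝ) ^ (-(1 / 2) : ℝ) = 2 := by
              rw [show (1 / 4 : ℝ) = (2 : ℝ) ^ (-2 : ℝ) by
                rw [Real.rpow_neg (by norm_num)]; norm_num, ← Real.rpow_mul (by norm_num)]
              norm_num
            rw [this]; ring
    have hs2 : ((2 : ℝ) ^ s) ^ (-(1 / 2) : ℝ) * 2 ^ (s + 2) ≤ 4 * R ^ (1 / 2 : ℝ) := by
      have h1 : ((2 : ℝ) ^ s) ^ (-(1 / 2) : ℝ) * 2 ^ (s + 2) = 4 * ((2 : ℝ) ^ s) ^ (1 / 2 : ℝ) := by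
        have e1 : (2 : ℝ) ^ (s + 2) = 4 * ((2 : ℝ) ^ s) ^ (1 : ℝ) := by
          rw [Real.rpow_one, pow_add]; ring
        rw [e1]
        have e2 : ((2 : ℝ) ^ s) ^ (1 / 2 : ℝ) = ((2 : ℝ) ^ s) ^ (-(1 / 2) : ℝ) *
            ((2 : ℝ) ^ s) ^ (1 : ℝ) := by
          rw [← Real.rpow_add (by positivity)]; norm_num
        rw [e2]; ring
      rw [h1]
      have h2 : (2 : ℝ) ^ s ≤ R := g1.trans hR0'
      gcongr
    set z : ℝ := ((2 : ℝ) ^ s) ^ (-(1 / 2) : ℝ) with hz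
    have hz0 : 0 ≤ z := by positivity
    have hfin : z * (1 + 2 ^ (s + 2) / nm d) ≤ 4 * W := by
      have e1 : z * (1 + 2 ^ (s + 2) / nm d) = z + (z * 2 ^ (s + 2)) / nm d := by ring
      rw [e1, hW]
      have e2 : (z * 2 ^ (s + 2)) / nm d ≤ (4 * R ^ (1 / 2 : ℝ)) / nm d := by gcongr
      have e3 : (4 * R ^ (1 / 2 : ℝ)) / nm d = 4 * (R ^ (1 / 2 : ℝ) / nm d) := by ring
      have e4 : 0 ≤ L ^ (-(1 / 2) : ℝ) := by positivity
      linarith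
    calc ∑ p ∈ Y, w p ≤ ∑ _p ∈ Y, C2 ^ 2 * R ^ (ε / 2) * z := Finset.sum_le_sum hw1
      _ = (Y.card : ℝ) * (C2 ^ 2 * R ^ (ε / 2) * z) := by rw [Finset.sum_const, nsmul_eq_mul]
      _ ≤ (C1' * uc d * (1 + 2 ^ (s + 2) / nm d)) * (C2 ^ 2 * R ^ (ε / 2) * z) := by gcongr
      _ = C1' * C2 ^ 2 * R ^ (ε / 2) * uc d * (z * (1 + 2 ^ (s + 2) / nm d)) := by ring
      _ ≤ C1' * C2 ^ 2 * R ^ (ε / 2) * uc d * (4 * W) := by gcongr
      _ = _ := by ring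
  have hsum := Finset.sum_fiberwise_of_maps_to hmaps w
  rw [← hsum]
  have hlog := log_count (δ := ε / 4) (by positivity) R hR1 k hkR
  calc ∑ ij ∈ range (k + 1) ×ˢ range (k + 1), ∑ p ∈ X with f p = ij, w p
      ≤ ∑ _ij ∈ range (k + 1) ×ˢ range (k + 1), 4 * C1' * C2 ^ 2 * R ^ (ε / 2) * uc d * W :=
        Finset.sum_le_sum hbox
    _ = ((k : ℝ) + 1) ^ 2 * (4 * C1' * C2 ^ 2 * R ^ (ε / 2) * uc d * W) := by
        rw [Finset.sum_const, Finset.card_product, card_range, nsmul_eq_mul]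
        push_cast; ring
    _ ≤ (Ck * R ^ (ε / 4)) ^ 2 * (4 * C1' * C2 ^ 2 * R ^ (ε / 2) * uc d * W) := by gcongr
    _ = 4 * C1' * C2 ^ 2 * Ck ^ 2 * R ^ ε * uc d * W := by
        have e1 : R ^ ε = R ^ (ε / 4) * R ^ (ε / 4) * R ^ (ε / 2) := by
          rw [← Real.rpow_add hR0, ← Real.rpow_add hR0]; congr 1; ring
        rw [e1]; ring

end Pool.Agent.H46.CV
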